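import Pool.Agent.Helper45.M2.D

/-!
MP_c75db0, Plan W: tests of the kinds `6`, `7` through kernel S: the law of the test with discs.
-/

set_option autoImplicit false
set_option exponentiation.threshold 60000
noncomputable section
namespace Pool.Agent.Helper45.M2

open Pool.Agent.Helper86.CX (Cx andB)
open Pool.Agent.Helper86.CT (N3 Mo mk A0 A4)
open Pool.Agent.Helper90.C75 (Vt avg bt wtT)
open Pool.Agent.Helper90.KMO (UU UU_pos UUc_ne)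
open Pool.Agent.Helper90.KMT (PT)
open Pool.Agent.Helper90.K9 (pk pz pk_add pk_congr)
open Pool.Agent.Helper17.K9 (V9)
open Pool.Agent.Helper17.N9
open Pool.Agent.Helper6.MONO.W2 (Mt NT)
open Pool.Agent.Helper91.TM (TP AT AT_okn lfT)
open Pool.Agent.Helper91.TMK (TOK TV nM)
open Pool.Agent.Helper45.N9S
open Pool.Agent.Helper45.N9S.RR
open Finset Matrix

variable {t : ℕ → ℝ}

theorem NWL_addG {π ν : Type} {D : ℕ} {lv : ν → Vt D → ℕ} {q : (P9 → ℕ) → π → ν} {k : ℕ} {M G : Mt}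
    {V : NW π} {R : R9} (h : NWL D lv q t k M V) (hR : ∀ K < 9,
      ‖(2 ^ 28 / 2 ^ k : ℂ) * en G (K / 3) (K % 3)‖ + (V.r.at K : ℝ) ≤ (R.at K : ℝ)) :
    NWL D lv q t k (M + G) ⟨V.v, R, V.ok⟩ where
  ex hk := by
    obtain ⟨n, h1, h2⟩ := h.ex hk
    refine ⟨n, h1, fun K hK => ?_⟩
    have e : en (M + G) (K / 3) (K % 3) = en M (K / 3) (K % 3) + en G (K / 3) (K % 3) := rfl
    have a := h2 K hK
    have b := hR K hK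
    show _ ≤ (R.at K : ℝ)
    rw [e, mul_add, add_sub_right_comm]
    exact (norm_add_le _ _).trans (by linarith)

theorem mwu_smul (W U A : Mt) (c : ℂ) (K : ℕ) : mwu W U (c • A) K = c * mwu W U A K := by
  unfold mwu en
  rw [Matrix.mul_smul, Matrix.smul_mul, Matrix.smul_apply, smul_eq_mul]

theorem lc_le (hP : PT 3 t) {j : ℕ} (hj : j < 3) : ‖lc t j‖ ≤ 1 := by
  unfold lc
  rw [Complex.norm_real, Real.norm_eq_abs, abs_le]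
  have h0 := hP.h0 j hj
  have h1 := hP.h1 j hj
  constructor <;> linarith

/-- the packed bounds -/
theorem zP_eq (p : ℕ) : zP p = pk (2 ^ 384) 9 (fun K => fa p K + fb p K) := by
  have h : zP p = Nat.land p ML9 + Nat.land (Nat.shiftRight p (nat_lit 3456)) ML9 := rfl
  rw [h, fa_eq, fb_eq, pk_add]

def y4 (p q r s : ℕ) (K : ℕ) : ℕ :=
  ((fa p K + fb p K) + (fa q K + fb q K)) + ((fa r K + fb r K) + (fa s K + fb s K))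

theorem y4_lt (p q r s K : ℕ) : y4 p q r s K < 2 ^ 300 := by
  have a1 := fa_lt p K
  have a2 := fb_lt p K
  have a3 := fa_lt q K
  have a4 := fb_lt q K
  have a5 := fa_lt r K
  have a6 := fb_lt r K
  have a7 := fa_lt s K
  have a8 := fb_lt s K
  have : (8 : ℕ) * 2 ^ 128 < 2 ^ 300 := by norm_num
  unfold y4
  omega

theorem zD1_eq (C : TC) (x0 x1 x2 x3 y0 y1 y2 y3 : NV NL) :
    zD1 C x0 x1 x2 x3 y0 y1 y2 y3 = pk (2 ^ 384) 9 (y4 (aE C x0 y0) (aE C x1 y1) (aE C x2 y2)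
      (aE C x3 y3)) := by
  have h : zD1 C x0 x1 x2 x3 y0 y1 y2 y3 = (zP (aE C x0 y0) + zP (aE C x1 y1)) +
    (zP (aE C x2 y2) + zP (aE C x3 y3)) := rfl
  rw [h, zP_eq, zP_eq, zP_eq, zP_eq, pk_add, pk_add, pk_add]
  rfl

theorem sc_ne (k : ℕ) : (2 ^ 28 / 2 ^ k : ℂ) ≠ 0 :=
  div_ne_zero (pow_ne_zero _ (by norm_num)) (pow_ne_zero _ (by norm_num))

/-- one of the matrices: the part on the integers and the rest -/
theorem one_ok (hP : PT 3 t) {k : ℕ} {Er : Mt} {E : DM} {Z X Y W : Mt}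
    (he : ∀ K < 9, ‖(UU : ℂ) * (en Er (K / 3) (K % 3) - (en Z (K / 3) (K % 3) +
      lc t 0 * en X (K / 3) (K % 3) + lc t 1 * en Y (K / 3) (K % 3) +
      lc t 2 * en W (K / 3) (K % 3)))‖ ≤ (E.r.at K : ℝ)) {n0 n1 n2 n3 : ℕ → Fin 2 → ℤ}
    (b0 : ∀ K < 9, ‖(2 ^ 28 / 2 ^ k : ℂ) * en Z (K / 3) (K % 3) -
        (⟨((n0 K 0 : ℤ) : ℝ), ((n0 K 1 : ℤ) : ℝ)⟩ : ℂ)‖ ≤ 5)
    (b1 : ∀ K < 9, ‖(2 ^ 28 / 2 ^ k : ℂ) * en X (K / 3) (K % 3) -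
        (⟨((n1 K 0 : ℤ) : ℝ), ((n1 K 1 : ℤ) : ℝ)⟩ : ℂ)‖ ≤ 5)
    (b2 : ∀ K < 9, ‖(2 ^ 28 / 2 ^ k : ℂ) * en Y (K / 3) (K % 3) -
        (⟨((n2 K 0 : ℤ) : ℝ), ((n2 K 1 : ℤ) : ℝ)⟩ : ℂ)‖ ≤ 5)
    (b3 : ∀ K < 9, ‖(2 ^ 28 / 2 ^ k : ℂ) * en W (K / 3) (K % 3) -
        (⟨((n3 K 0 : ℤ) : ℝ), ((n3 K 1 : ℤ) : ℝ)⟩ : ℂ)‖ ≤ 5) :
    ∀ K < 9, ‖(2 ^ 28 / 2 ^ k : ℂ) * en (Er - (2 ^ 28 / 2 ^ k : ℂ)⁻¹ • (nMt n0 + lc t 0 • nMt n1 +
      lc t 1 • nMt n2 + lc t 2 • nMt n3)) (K / 3) (K % 3)‖ ≤ (E.r.at K : ℝ) / 2 ^ (20 + k) + 20 := by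
  intro K hK
  have s0 := sc_ne k
  have e1 : en (Er - (2 ^ 28 / 2 ^ k : ℂ)⁻¹ • (nMt n0 + lc t 0 • nMt n1 + lc t 1 • nMt n2 +
      lc t 2 • nMt n3)) (K / 3) (K % 3) = en Er (K / 3) (K % 3) - (2 ^ 28 / 2 ^ k : ℂ)⁻¹ *
      (en (nMt n0) (K / 3) (K % 3) + lc t 0 * en (nMt n1) (K / 3) (K % 3) +
      lc t 1 * en (nMt n2) (K / 3) (K % 3) + lc t 2 * en (nMt n3) (K / 3) (K % 3)) := rfl
  rw [e1, mul_sub, mul_inv_cancel_left₀ s0, en_nMt n0 hK, en_nMt n1 hK, en_nMt n2 hK, en_nMt n3 hK]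
  have h := he K hK
  have c0 := b0 K hK
  have c1 := b1 K hK
  have c2 := b2 K hK
  have c3 := b3 K hK
  generalize (⟨((n0 K 0 : ℤ) : ℝ), ((n0 K 1 : ℤ) : ℝ)⟩ : ℂ) = m0 at *
  generalize (⟨((n1 K 0 : ℤ) : ℝ), ((n1 K 1 : ℤ) : ℝ)⟩ : ℂ) = m1 at *
  generalize (⟨((n2 K 0 : ℤ) : ℝ), ((n2 K 1 : ℤ) : ℝ)⟩ : ℂ) = m2 at *
  generalize (⟨((n3 K 0 : ℤ) : ℝ), ((n3 K 1 : ℤ) : ℝ)⟩ : ℂ) = m3 at *
  generalize en Er (K / 3) (K % 3) = x at *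
  generalize en Z (K / 3) (K % 3) = z0 at *
  generalize en X (K / 3) (K % 3) = z1 at *
  generalize en Y (K / 3) (K % 3) = z2 at *
  generalize en W (K / 3) (K % 3) = z3 at *
  generalize ((E.r.at K : ℕ) : ℝ) = r at *
  have l0 := lc_le hP (j := 0) (by norm_num)
  have l1 := lc_le hP (j := 1) (by norm_num)
  have l2 := lc_le hP (j := 2) (by norm_num)
  generalize lc t 0 = a0 at *
  generalize lc t 1 = a1 at *
  generalize lc t 2 = a2 at *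
  have hU : (UU : ℂ) = 2 ^ 48 := by unfold UU; norm_num
  have e2 : (2 ^ 28 / 2 ^ k : ℂ) * x - (m0 + a0 * m1 + a1 * m2 + a2 * m3) =
      (UU : ℂ) * (x - (z0 + a0 * z1 + a1 * z2 + a2 * z3)) / 2 ^ (20 + k) +
      (((2 ^ 28 / 2 ^ k : ℂ) * z0 - m0) + a0 * ((2 ^ 28 / 2 ^ k : ℂ) * z1 - m1) +
      a1 * ((2 ^ 28 / 2 ^ k : ℂ) * z2 - m2) + a2 * ((2 ^ 28 / 2 ^ k : ℂ) * z3 - m3)) := by
    rw [hU, pow_add]
    have p1 : (2 : ℂ) ^ k ≠ 0 := pow_ne_zero _ (by norm_num)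
    field_simp
    ring
  rw [e2]
  have n1 : ‖(UU : ℂ) * (x - (z0 + a0 * z1 + a1 * z2 + a2 * z3)) / 2 ^ (20 + k)‖ ≤
      r / 2 ^ (20 + k) := by
    rw [norm_div, norm_pow, Complex.norm_ofNat]
    exact div_le_div_of_nonneg_right h (by positivity)
  have mm : ∀ {a b : ℂ}, ‖a‖ ≤ 1 → ‖b‖ ≤ 5 → ‖a * b‖ ≤ 5 := fun {a b} ha hb => by
    rw [norm_mul]
    have := mul_le_mul ha hb (norm_nonneg _) (by norm_num)
    linarith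
  have n2 := mm l0 c1
  have n3 := mm l1 c2
  have n4 := mm l2 c3
  have n5 := norm_add_le ((((2 ^ 28 / 2 ^ k : ℂ) * z0 - m0) + a0 * ((2 ^ 28 / 2 ^ k : ℂ) * z1 - m1)) +
      a1 * ((2 ^ 28 / 2 ^ k : ℂ) * z2 - m2)) (a2 * ((2 ^ 28 / 2 ^ k : ℂ) * z3 - m3))
  have n6 := norm_add_le (((2 ^ 28 / 2 ^ k : ℂ) * z0 - m0) + a0 * ((2 ^ 28 / 2 ^ k : ℂ) * z1 - m1))
      (a1 * ((2 ^ 28 / 2 ^ k : ℂ) * z2 - m2))
  have n7 := norm_add_le ((2 ^ 28 / 2 ^ k : ℂ) * z0 - m0) (a0 * ((2 ^ 28 / 2 ^ k : ℂ) * z1 - m1))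
  refine (norm_add_le _ _).trans ?_
  linarith

/-- the transformed part on the integers -/
theorem one_mwu (hP : PT 3 t) (k : ℕ) (A B : Mt) {n0 n1 n2 n3 : ℕ → Fin 2 → ℤ} {K : ℕ}
    {a b c d : ℝ} (h0 : ‖mwu A B (nMt n0) K‖ ≤ a) (h1 : ‖mwu A B (nMt n1) K‖ ≤ b)
    (h2 : ‖mwu A B (nMt n2) K‖ ≤ c) (h3 : ‖mwu A B (nMt n3) K‖ ≤ d) {e : ℂ} (he : ‖e‖ ≤ 1) :
    ‖mwu A B ((2 ^ 28 / 2 ^ k : ℂ) • (e • ((2 ^ 28 / 2 ^ k : ℂ)⁻¹ • (nMt n0 + lc t 0 • nMt n1 +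
      lc t 1 • nMt n2 + lc t 2 • nMt n3)))) K‖ ≤ a + b + c + d := by
  have s0 := sc_ne k
  have e1 : (2 ^ 28 / 2 ^ k : ℂ) • (e • ((2 ^ 28 / 2 ^ k : ℂ)⁻¹ • (nMt n0 + lc t 0 • nMt n1 +
      lc t 1 • nMt n2 + lc t 2 • nMt n3))) = e • (nMt n0 + lc t 0 • nMt n1 +
      lc t 1 • nMt n2 + lc t 2 • nMt n3) := by
    rw [smul_smul, smul_smul, mul_right_comm, mul_inv_cancel₀ s0, one_mul]
  rw [e1, mwu_smul, mwu_add, mwu_add, mwu_add, mwu_smul, mwu_smul, mwu_smul]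
  generalize mwu A B (nMt n0) K = x0 at *
  generalize mwu A B (nMt n1) K = x1 at *
  generalize mwu A B (nMt n2) K = x2 at *
  generalize mwu A B (nMt n3) K = x3 at *
  have l0 := lc_le hP (j := 0) (by norm_num)
  have l1 := lc_le hP (j := 1) (by norm_num)
  have l2 := lc_le hP (j := 2) (by norm_num)
  generalize lc t 0 = a0 at *
  generalize lc t 1 = a1 at *
  generalize lc t 2 = a2 at *
  have mm : ∀ {a b : ℂ} {c : ℝ}, ‖a‖ ≤ 1 → ‖b‖ ≤ c → ‖a * b‖ ≤ c := fun {a b c} ha hb => by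
    rw [norm_mul]
    have h0 := norm_nonneg b
    have h1 := mul_le_mul_of_nonneg_right ha h0
    linarith
  refine mm he ?_
  have n2 := mm l0 h1
  have n3 := mm l1 h2
  have n4 := mm l2 h3
  have n5 := norm_add_le (x0 + a0 * x1 + a1 * x2) (a2 * x3)
  have n6 := norm_add_le (x0 + a0 * x1) (a1 * x2)
  have n7 := norm_add_le x0 (a0 * x1)
  linarith

theorem rD_ge (k x y r : ℕ) : ((x : ℝ) / 2 ^ (20 + k) + 20) + ((y : ℝ) / 2 ^ (20 + k) + 20) + (r : ℝ) ≤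
    (rD k x y r : ℝ) := by
  have h : rD k x y r = r + ((x + y) / 2 ^ (20 + k) + 42) := by
    have e : Nat.shiftRight (Nat.add x y) (Nat.add (nat_lit 20) k) = (x + y) / 2 ^ (20 + k) :=
      Nat.shiftRight_eq_div_pow _ _
    rw [← e]
    rfl
  rw [h]
  have h1 := Nat.lt_mul_div_succ (x + y) (Nat.two_pow_pos (20 + k))
  have h2 : ((x : ℝ) + y) < 2 ^ (20 + k) * ((((x + y) / 2 ^ (20 + k) : ℕ) : ℝ) + 1) := by
    exact_mod_cast h1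
  have h3 : ((x : ℝ) + y) / 2 ^ (20 + k) < (((x + y) / 2 ^ (20 + k) : ℕ) : ℝ) + 1 := by
    rw [div_lt_iff₀ (by positivity), mul_comm]
    exact h2
  rw [add_div] at h3
  push_cast
  linarith

theorem r9D_at (k : ℕ) (E F R : R9) : ∀ K < 9, (r9D k E F R).at K = rD k (E.at K) (F.at K) (R.at K) := by
  intro K hK
  interval_cases K <;> rfl

/-- **THE TEST WITH DISCS** -/
theorem t4D_ok (hP : PT 4 t) {k1 k2 : Kf} {g : Te} {M X : V9 (N3 TP)} {E F : DM} {Mr Xr Er Fr : Mt}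
    (hM : TV 4 (nM 3 lfT) t Mr M) (hX : TV 4 (nM 3 lfT) t Xr X) (hE : DV t Er E) (hF : DV t Fr F)
    {d1 d2 : ℂ} (e1 : ‖d1‖ ≤ 1) (e2 : ‖d2‖ ≤ 1) (h : t4D k1 k2 g M X E F = true) :
    NT (KfM k1 t) (KfM k2 t) (Xr + d1 • Er + d2 • Fr) Mr := by
  have hP3 : PT 3 t := Pool.Agent.Helper91.TMK.PT.dn hP
  obtain ⟨o, h⟩ := andB2 h
  obtain ⟨oE, oF⟩ := andB2 o
  have h' := fk_ok h
  clear h o
  generalize u8 g.cs (nat_lit 32) = k at h'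
  obtain ⟨hk, h⟩ := andB2 h'
  have hk : k ≤ 20 := ble_le hk
  clear h'
  obtain ⟨-, oE⟩ := andB2 oE
  obtain ⟨-, oF⟩ := andB2 oF
  obtain ⟨oE1, oE2⟩ := andB2 oE
  obtain ⟨oE1, oE3⟩ := andB2 oE1
  obtain ⟨oE2, oE4⟩ := andB2 oE2
  obtain ⟨oF1, oF2⟩ := andB2 oF
  obtain ⟨oF1, oF3⟩ := andB2 oF1
  obtain ⟨oF2, oF4⟩ := andB2 oF2
  obtain ⟨Z, X', Y, W, z1, z2, z3, z4, z5⟩ := hE.ex
  obtain ⟨Z', X'', Y', W', y1, y2, y3, y4', y5⟩ := hF.ex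
  obtain ⟨n0, a0, b0⟩ := dN_ok hP3 hk z1 oE1 hE.rz
  obtain ⟨n1, a1, b1⟩ := dN_ok hP3 hk z2 oE3 hE.rx
  obtain ⟨n2, a2, b2⟩ := dN_ok hP3 hk z3 oE2 hE.ry
  obtain ⟨n3, a3, b3⟩ := dN_ok hP3 hk z4 oE4 hE.rw
  obtain ⟨m0, c0, f0⟩ := dN_ok hP3 hk y1 oF1 hF.rz
  obtain ⟨m1, c1, f1⟩ := dN_ok hP3 hk y2 oF3 hF.rx
  obtain ⟨m2, c2, f2⟩ := dN_ok hP3 hk y3 oF2 hF.ry
  obtain ⟨m3, c3, f3⟩ := dN_ok hP3 hk y4' oF4 hF.rw
  have q0 := pair_ok g.fr (Nat.shiftRight g.fr 360) a0 c0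
  have q1 := pair_ok g.fr (Nat.shiftRight g.fr 360) a1 c1
  have q2 := pair_ok g.fr (Nat.shiftRight g.fr 360) a2 c2
  have q3 := pair_ok g.fr (Nat.shiftRight g.fr 360) a3 c3
  have uE := one_ok hP3 (k := k) z5 b0 b1 b2 b3
  have uF := one_ok hP3 (k := k) y5 f0 f1 f2 f3
  set GE : Mt := (2 ^ 28 / 2 ^ k : ℂ)⁻¹ • (nMt n0 + lc t 0 • nMt n1 + lc t 1 • nMt n2 +
    lc t 2 • nMt n3) with hGE
  set GF : Mt := (2 ^ 28 / 2 ^ k : ℂ)⁻¹ • (nMt m0 + lc t 0 • nMt m1 + lc t 1 • nMt m2 +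
    lc t 2 • nMt m3) with hGF
  have hA := NWL_addG (G := d1 • (Er - GE) + d2 • (Fr - GF)) (R := r9D k E.r F.r (nN X k).r)
    (nN_ok hP hk hX) (fun K hK => by
      have en1 : en (d1 • (Er - GE) + d2 • (Fr - GF)) (K / 3) (K % 3) =
        d1 * en (Er - GE) (K / 3) (K % 3) + d2 * en (Fr - GF) (K / 3) (K % 3) := rfl
      rw [en1, r9D_at k _ _ _ K hK]
      refine le_trans ?_ (rD_ge k (E.r.at K) (F.r.at K) ((nN X k).r.at K))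
      have v1 := uE K hK
      have v2 := uF K hK
      have mm : ∀ {a b : ℂ} {c : ℝ}, ‖a‖ ≤ 1 → ‖(2 ^ 28 / 2 ^ k : ℂ) * b‖ ≤ c →
          ‖(2 ^ 28 / 2 ^ k : ℂ) * (a * b)‖ ≤ c := fun {a b c} ha hb => by
        rw [mul_left_comm, norm_mul]
        have h1 := mul_le_mul_of_nonneg_right ha (norm_nonneg ((2 ^ 28 / 2 ^ k : ℂ) * b))
        linarith
      have w1 := mm e1 v1
      have w2 := mm e2 v2
      rw [mul_add]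
      have w3 := norm_add_le ((2 ^ 28 / 2 ^ k : ℂ) * (d1 * en (Er - GE) (K / 3) (K % 3)))
        ((2 ^ 28 / 2 ^ k : ℂ) * (d2 * en (Fr - GF) (K / 3) (K % 3)))
      linarith)
  have key := tSZ_ok (X := Ms4) Ms4_ok (le_refl 4) hP (fun G => ndw_k 3 t G) (nN_ok hP hk hM) hA
    (k1 := k1) (k2 := k2) (yf := fun C => zD k E F C) (te := g)
    (yy := y4 _ _ _ _) (G' := d1 • GE + d2 • GF) (zD1_eq _ _ _ _ _ _ _ _ _)
    (fun K _ => y4_lt _ _ _ _ K) ?_ h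
  · have e : Xr + (d1 • (Er - GE) + d2 • (Fr - GF)) + (d1 • GE + d2 • GF) =
        Xr + d1 • Er + d2 • Fr := by
      rw [smul_sub, smul_sub]
      abel
    rwa [e] at key
  · intro K hK
    rw [smul_add, mwu_add]
    have r1 := one_mwu hP3 k (mI (AI g.fr)) (mI (AI (Nat.shiftRight g.fr 360))) (q0 K hK).1
      (q1 K hK).1 (q2 K hK).1 (q3 K hK).1 e1
    have r2 := one_mwu hP3 k (mI (AI g.fr)) (mI (AI (Nat.shiftRight g.fr 360))) (q0 K hK).2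
      (q1 K hK).2 (q2 K hK).2 (q3 K hK).2 e2
    refine (norm_add_le _ _).trans ((add_le_add r1 r2).trans (le_of_eq ?_))
    unfold y4
    push_cast
    unfold aE
    ring

end Pool.Agent.Helper45.M2
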