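import Pool.Agent.Helper45.M2.B
import Pool.Agent.Helper45.M2.E

/-!
MP_c75db0, Plan W: THE TAIL OF THE RUNS OF A ROTATION WITH DISC MATRICES of three parameters: laws.
-/

set_option autoImplicit false
noncomputable section
namespace Pool.Agent.Helper45.M2

open Matrix
open Pool.Agent.Helper90.KMO (UU UU_pos UUc_ne cz zv zv_p andB_t)
open Pool.Agent.Helper90.KMT (PT)
open Pool.Agent.Helper86.C75 (Z)
open Pool.Agent.Helper86.CX (Cx andB)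
open Pool.Agent.Helper86.CT (N3 Alg Mo KM mk cst addM subM mulM conjM invM invOK nx)
open Pool.Agent.Helper17.K9 (V9)
open Pool.Agent.Helper12.TE (bcM nth_of disc_ex bF_disc)
open Pool.Agent.Helper62.TVM (cstC zeM negM hfM V3m cstV addV subV negV smV mulV oV)
open Pool.Agent.Helper62.NBM (SN ND dbM)
open Pool.Agent.Helper62.NBD (BP GB)
open Pool.Agent.Helper62.NBV
open Pool.Agent.Helper62.NBW (nth nth_t pcB ggM adK zB zB_cz IzB_cz z_sq pc_z pc_a mu_norm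
  nu_norm mu_ne)
open Pool.Agent.Helper26.XH (FH hL hR hH)
open Pool.Agent.Helper26.IT (upK)
open Pool.Agent.Helper51.FR (andB_t')
open Pool.Agent.Helper91.BX (crM upM upV tu)
open Pool.Agent.Helper91.TMK
open Pool.Agent.Helper91.TMK.XH (HOK)
open Pool.Agent.Helper91.TMK.FR (cst_nat)
open Pool.Agent.Helper91.TMK.IT (nA)
open Pool.Agent.Helper91.TMK.TST
open Pool.Agent.Helper91.TMK.SW
open Pool.Agent.Helper91.TMK.NBW
open Pool.Agent.Helper6.MONO (V3)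
open Pool.Agent.Helper6.MONO.W2 (Mt J1 NT NZ IN rfJ rfd nX nMd Sy sDm phi brJ SPC chS chC chD
  chR chO chQ chR_pos chO_mul chO_le chQ_norm)
open Pool.Agent.Helper21.SW (cK lf4)


variable {α κ γ δ : Type}

/-- THE LAW of the tests with disc matrices of three parameters -/
structure TDL (lf : Mch α) (lq : Mch (N3 α)) (KV : κ → (ℕ → ℝ) → Mt) (T : TD α κ γ δ) : Prop where
  t : ∀ {k1 k2 : κ} {g : γ} {M X : V9 (N3 α)} {E F : V9 α} {t : ℕ → ℝ} {Mr Xr Er Fr : Mt}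
    {d1 d2 : ℂ},
    T.ok E = true → T.ok F = true → T.t k1 k2 g M X (T.cv E) (T.cv F) = true → PT 4 t →
    TV 4 lq t Mr M → TV 4 lq t Xr X → TV 3 lf t Er E → TV 3 lf t Fr F → ‖d1‖ ≤ 1 → ‖d2‖ ≤ 1 →
    NT (KV k1 t) (KV k2 t) (Xr + d1 • Er + d2 • Fr) Mr

/-! ### other values of the parameters -/

theorem TOK_tu {c : ℝ} {D : ℕ} {lf : Mch α} {A : Alg α} (hA : AOKn c D lf A) {t : ℕ → ℝ} {f : ℂ}
    {M : Mo α} (h : TOK D lf t f M) (u : ℝ) : TOK D lf (tu D t u) f M := by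
  refine ⟨h.val, fun hg => ?_⟩
  rw [hA.evc M.v (t := tu D t u) (t' := t) fun j hj => Pool.Agent.Helper91.BX.tu_lt hj u]
  exact h.mod hg

theorem TV_tu {c : ℝ} {D : ℕ} {lf : Mch α} {A : Alg α} (hA : AOKn c D lf A) {t : ℕ → ℝ} {M : Mt}
    {V : V9 α} (h : TV D lf t M V) (u : ℝ) : TV D lf (tu D t u) M V :=
  ⟨TOK_tu hA h.a u, TOK_tu hA h.b u, TOK_tu hA h.c u, TOK_tu hA h.d u, TOK_tu hA h.e u,
    TOK_tu hA h.f u, TOK_tu hA h.g u, TOK_tu hA h.h u, TOK_tu hA h.i u⟩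

section
variable {lf : Mch α} {A : Alg α} {KV : κ → (ℕ → ℝ) → Mt} {t : ℕ → ℝ} {k1 k2 : κ}

theorem q4E_ok (hN : AOKn 2 3 lf A) {D : TD α κ γ δ} (hD : TDL lf (nM 3 lf) KV D)
    (hKV : ∀ {k : κ} {t : ℕ → ℝ} {u : ℝ}, KV k (tu 3 t u) = KV k t) {u : ℝ}
    (hP : PT 4 (tu 3 t u))
    {gs : List γ} {n : ℕ}
    {M U V X : V9 (N3 α)} {E F : V9 α} {Mr Ur Xr Er Fr : Mt} {z : ℂ} (hM : TV 4 (nM 3 lf) (tu 3 t u) Mr M)
    (hU : TV 4 (nM 3 lf) (tu 3 t u) (z • Ur) U)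
    (hV : TV 4 (nM 3 lf) (tu 3 t u) ((Complex.I * z) • Ur) V)
    (hX : TV 4 (nM 3 lf) (tu 3 t u) Xr X) (hE : TV 3 lf t Er E)
    (hF : TV 3 lf t Fr F) (oE : D.ok E = true) (oF : D.ok F = true) {d1 d2 : ℂ}
    (e1 : ‖d1‖ ≤ 1) (e2 : ‖d2‖ ≤ 1)
    (h : q4E A D k1 k2 gs n M U V X (D.cv E) (D.cv F) = true) :
    Pool.Agent.Helper62.NBV.T4 (KV k1 t) (KV k2 t) (Xr + d1 • Er + d2 • Fr) Mr Ur z := by
  have hB := AOK_nx hN
  have hE := TV_tu hN hE u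
  have hF := TV_tu hN hF u
  obtain ⟨h1, h2⟩ := andB_t' h
  obtain ⟨h3, h4⟩ := andB_t' h1
  obtain ⟨h5, h6⟩ := andB_t' h2
  obtain ⟨g0, _, k0⟩ := nth_t h3
  obtain ⟨g1, _, k1'⟩ := nth_t h4
  obtain ⟨g2, _, k2'⟩ := nth_t h5
  obtain ⟨g3, _, k3⟩ := nth_t h6
  have m1 := hD.t oE oF k0 hP (hM.add hB hU) hX hE hF e1 e2
  have m2 := hD.t oE oF k1' hP (hM.add hB hV) hX hE hF e1 e2
  have m3 := hD.t oE oF k2' hP (hM.sub hB hU) hX hE hF e1 e2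
  have m4 := hD.t oE oF k3 hP (hM.sub hB hV) hX hE hF e1 e2
  rw [hKV, hKV] at m1 m2 m3 m4
  exact ⟨⟨m1, m2⟩, ⟨m3, m4⟩⟩


/-- the number `t1² x` -/
theorem cc1_ge (b : BP) (x : ℕ) {r : ℝ} (h0 : 0 ≤ r) (h : r ≤ (b.t1 : ℝ) / UU) :
    r * r * ((x : ℝ) / UU) ≤ (cc1 b x : ℝ) / UU := by
  have hU := UU_pos
  have e : cc1 b x = (b.t1 * b.t1 * x) / 2 ^ 96 + 1 := by
    have e1 : Nat.shiftRight (Nat.mul (Nat.mul b.t1 b.t1) x) (nat_lit 96) =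
      (b.t1 * b.t1 * x) / 2 ^ 96 := Nat.shiftRight_eq_div_pow _ _
    rw [← e1]
    rfl
  have h1 := Nat.lt_mul_div_succ (b.t1 * b.t1 * x) (Nat.two_pow_pos 96)
  rw [← e] at h1
  have h2 : ((b.t1 * b.t1 * x : ℕ) : ℝ) ≤ 2 ^ 96 * (cc1 b x : ℝ) := by exact_mod_cast h1.le
  have h3 : r * r ≤ ((b.t1 : ℝ) / UU) * ((b.t1 : ℝ) / UU) := mul_le_mul h h h0 (h0.trans h)
  have h4 : r * r * ((x : ℝ) / UU) ≤ ((b.t1 : ℝ) / UU) * ((b.t1 : ℝ) / UU) * ((x : ℝ) / UU) :=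
    mul_le_mul_of_nonneg_right h3 (by positivity)
  refine h4.trans ?_
  have hU2 : (UU : ℝ) = 2 ^ 48 := by unfold UU; norm_num
  rw [hU2]
  push_cast at h2
  have e5 : (b.t1 : ℝ) / 2 ^ 48 * ((b.t1 : ℝ) / 2 ^ 48) * ((x : ℝ) / 2 ^ 48) =
      ((b.t1 : ℝ) * b.t1 * x) / 2 ^ 96 / 2 ^ 48 := by
    field_simp
  rw [e5]
  refine div_le_div_of_nonneg_right ?_ (by positivity)
  rw [div_le_iff₀ (by positivity)]
  linarith

/-- the second direction with the discs separated -/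
theorem bF_disc2 {r h hd dh c1 c2 : ℝ} {ρ η d1 d2 : ℂ} {X L R2 c Nc Qc Ndc Qdc : Mt}
    (e1 : (r : ℂ) * (r : ℂ) * ρ = d1 * (c1 : ℂ)) (e2 : (r : ℂ) * (r : ℂ) * η = d2 * (c2 : ℂ)) :
    X + bF r h hd dh ρ η L R2 c Nc Qc Ndc Qdc =
      ((X + (r : ℂ) • (((h * hd : ℝ) : ℂ) • (c - Qc) + (r : ℂ) • (Ndc - (r : ℂ) • Qdc))) +
        ((((r : ℂ) * (r : ℂ)) • (Nc + (r : ℂ) • (c - Qc))) * L -
          R2 * (((r : ℂ) * (r : ℂ)) • (Nc + (r : ℂ) • (c - Qc))))) +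
      d1 • ((c1 : ℂ) • Qdc + (((c1 : ℂ) • Qc) * L - R2 * ((c1 : ℂ) • Qc))) +
      d2 • (((c2 : ℂ) * (Complex.I * dh)) • Qc) := by
  have a1 := bF_disc (r := r) (h := h) (hd := hd) (dh := dh) (c1 := 1) (c2 := 1) (ρ := ρ) (η := η)
    (d1 := ρ) (d2 := η) (X := X) (L := L) (R2 := R2) (c := c) (Nc := Nc) (Qc := Qc) (Ndc := Ndc)
    (Qdc := Qdc) (by push_cast; ring) (by push_cast; ring)
  rw [a1]
  have e3 : ρ • ((((r : ℂ) * (r : ℂ)) * ((1 : ℝ) : ℂ)) • Qdc +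
        (((((r : ℂ) * (r : ℂ)) * ((1 : ℝ) : ℂ)) • Qc) * L -
          R2 * ((((r : ℂ) * (r : ℂ)) * ((1 : ℝ) : ℂ)) • Qc))) =
      d1 • ((c1 : ℂ) • Qdc + (((c1 : ℂ) • Qc) * L - R2 * ((c1 : ℂ) • Qc))) := by
    simp only [smul_add, smul_sub, smul_smul, smul_mul_assoc, mul_smul_comm]
    rw [← e1]
    push_cast
    module
  have e4 : η • ((((r : ℂ) * (r : ℂ)) * (((1 : ℝ) : ℂ) * (Complex.I * dh))) • Qc) =
      d2 • (((c2 : ℂ) * (Complex.I * dh)) • Qc) := by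
    simp only [smul_smul]
    congr 1
    rw [← mul_assoc d2, ← e2]
    push_cast
    ring
  rw [e3, e4]

end

section
variable {lf : Mch α} {A : Alg α} {T : TK α κ γ} {KV : κ → (ℕ → ℝ) → Mt} {t : ℕ → ℝ} {v vd : V3}
  {F : FH α} {k1 k2 : κ} {S S' : Mt} {Sl Sr : V9 α} {φ : ℝ} {g : Sy} {μ : ℂ} {th h hd : ℝ}
  {P N Pd Nd : Mt} {K : LC α} {I : LI α} {D : TD α κ γ δ}

/-- A PIECE OF THE TAIL -/
theorem btD_ok (hN : AOKn 2 3 lf A) (hT : TKL lf (nM 3 lf) KV T) (hD : TDL lf (nM 3 lf) KV D)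
    (hP : PT 3 t)
    (h2 : brJ 1 v v = 2) (h2' : (brJ 1 vd v).re = 0)
    (hF : HOK 3 lf t v vd F) (H : SPC (rfJ 1 v * sDm φ g.1 g.2) (rfd 1 0 v vd * sDm φ g.1 g.2) μ
      (-star μ ^ 2) th (-2 * th) h hd P N Pd Nd) (hμ : star μ * μ = 1) (hh : 1 ≤ h)
    (hd0 : 0 ≤ hd) (hK : TLC lf t v μ th h hd P N Pd Nd K) (hl : TV 3 lf t (hL v vd S) Sl)
    (hr : TV 3 lf t (hR v vd S') Sr) {bp : List BP} {i : ℕ} {gs : List γ}
    (hb : btD A T D F K bp i k1 k2 Sl Sr gs = true) {n : ℕ} (hn : bcT h bp i n) :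
    NT (cK v (KV k1 t)) (cK v (KV k2 t)) (nX v vd (nRM φ v g.1 g.2 (n - 1))
      (nMd φ v vd g.1 g.2 (n - 1)) S S') (nRM φ v g.1 g.2 (n - 1)) := by
  obtain ⟨b, hbi, hb1⟩ := nth_t hb
  obtain ⟨p1, p2⟩ := andB_t' hb1
  cases hex : b.ex with
  | true =>
    refine btK_ok hN hT hP h2 h2' hF H hμ hh hd0 hK hl hr (bp := bp) (i := i) (gs := gs) ?_ hn
    have p2' : btD1 A T D F K k1 k2 Sl Sr gs b (rrM A b) (mulM (nx A) (rrM A b) (rrM A b))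
        (mM A K.N K.C (rrM A b)) (z0M A K.Q b) (z1M A K.Q b) = true := p2
    unfold btD1 at p2'
    rw [hex] at p2'
    obtain ⟨p4, p3⟩ := andB_t' (show andB (laB b) (bt0 A T F K k1 k2 Sl Sr gs b (rrM A b)) = true
      from p2')
    unfold btK
    rw [nth_of hbi]
    show andB (andB (laB b) (pcB b)) (bt0 A T F K k1 k2 Sl Sr gs b (rrM A b)) = true
    rw [p1, p3, p4]
    rfl
  | false =>
    have hA3 := nA hN
    have a4 := AOK_nx hN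
    obtain ⟨b', hbi', c0, c1, c2, c3, hn2, _⟩ := hn
    have eb : b' = b := by rw [hbi] at hbi'; exact (Option.some.inj hbi').symm
    subst eb
    have hn1 : 1 ≤ n := by omega
    have hr0 := chR_pos hh hn1
    have hU : UU = 2 ^ 48 := by unfold UU; norm_num
    obtain ⟨u, h0, h1, hP4, hrm⟩ := cr_ex (τ := chR h n) (a := b'.t0) (b := b'.t1) hN hP
      (by norm_num) (by rw [← hU]; exact c0) (by rw [← hU]; exact c1)
    have hR : TOK 4 (nM 3 lf) (tu 3 t u) ((chR h n : ℝ) : ℂ) (rrM A b') := hrm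
    have nq := chQ_norm (mu_norm hμ) (nu_norm hμ) hh hn1
    have hρ : ‖chQ μ (-star μ ^ 2) h n‖ ≤ (b'.de : ℝ) / UU := by rw [nq]; exact c2
    have hη : ‖(n : ℂ) * chQ μ (-star μ ^ 2) h n‖ ≤ (b'.et : ℝ) / UU := by
      rw [norm_mul, nq, Complex.norm_natCast, mul_one_div]
      exact c3
    have hr1 : chR h n ≤ (b'.t1 : ℝ) / UU := c1
    have nr : ‖((chR h n : ℝ) : ℂ) * ((chR h n : ℝ) : ℂ)‖ = chR h n * chR h n := by
      rw [norm_mul, Complex.norm_real, Real.norm_of_nonneg hr0.le]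
    have kρ : ‖((chR h n : ℝ) : ℂ) * ((chR h n : ℝ) : ℂ) * chQ μ (-star μ ^ 2) h n‖ ≤
        (cc1 b' b'.de : ℝ) / UU := by
      rw [norm_mul, nr]
      exact (mul_le_mul_of_nonneg_left hρ (by positivity)).trans (cc1_ge b' b'.de hr0.le hr1)
    have kη : ‖((chR h n : ℝ) : ℂ) * ((chR h n : ℝ) : ℂ) * ((n : ℂ) * chQ μ (-star μ ^ 2) h n)‖ ≤
        (cc1 b' b'.et : ℝ) / UU := by
      rw [norm_mul, nr]
      exact (mul_le_mul_of_nonneg_left hη (by positivity)).trans (cc1_ge b' b'.et hr0.le hr1)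
    obtain ⟨d1, n1, q1'⟩ := disc_ex kρ
    obtain ⟨d2, n2, q2'⟩ := disc_ex kη
    have hz := pc_z p1 hρ
    have hM := TV_m hN hP4 hK.N hK.C hR
    have hz0 := TV_z0 (u := u) hN hP hK.Q b'
    have hz1 := TV_z1 (u := u) hN hP hK.Q b'
    have h4 := TOK_h4 (u := u) hN hP hK
    have hL4 := TV.up hN hl u
    have hR4 := TV.up hN (TV_r2 hA3 hF hr) u
    have hr2 := hR.mul a4 hP4 hR
    have hom := chO_mul hh hn1
    have hole := chO_le hh hn1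
    have hG : 0 ≤ h ^ 2 - 1 := by nlinarith
    have p2' : btD1 A T D F K k1 k2 Sl Sr gs b' (rrM A b') (mulM (nx A) (rrM A b') (rrM A b'))
      (mM A K.N K.C (rrM A b')) (z0M A K.Q b') (z1M A K.Q b') = true := p2
    unfold btD1 at p2'
    rw [hex] at p2'
    obtain ⟨oo, q0⟩ := andB_t' (show btH _ _ _ _ _ _ _ _ _ _ _ _ _ _ _ _ = true from p2')
    obtain ⟨oE, oF⟩ := andB_t' oo
    obtain ⟨q1, q2⟩ := andB_t' (show btG _ _ _ _ _ _ _ _ _ _ _ _ _ _ _ _ = true from q0)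
    obtain ⟨q3, q4⟩ := andB_t' q1
    obtain ⟨q5, q6⟩ := andB_t' q2
    obtain ⟨o1, o2⟩ := pc_a p1 hex hr0 c0 c1 hG hom hole
    have hA := TV_aK (u := u) hN hP hK b'.ka
    have hA2 := TV_aHi hN hP hP4 hK hR b'
    -- the constant part
    have hhd : TOK 3 lf t ((h * hd : ℝ) : ℂ) (mulM A K.s.h K.s.hd) :=
      tc (hK.h.mul hA3 hP hK.hd) (by push_cast; ring)
    have hbc : TV 4 (nM 3 lf) (tu 3 t u) (((chR h n : ℝ) : ℂ) • (((h * hd : ℝ) : ℂ) •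
        (rfJ 1 v - (1 - P) * rfJ 1 v) + ((chR h n : ℝ) : ℂ) • (Nd * rfJ 1 v -
          ((chR h n : ℝ) : ℂ) • (-Pd * rfJ 1 v)))) (bcM A K (rrM A b')) :=
      TV.smul a4 hP4 hR ((TV.up hN (TV.smul hA3 hP hhd hK.C) u).add a4
        (TV.smul a4 hP4 hR ((TV.up hN hK.Nd u).sub a4
          (TV.smul a4 hP4 hR (TV.up hN hK.Qd u)))))
    have hg := ((TV.smul a4 hP4 hr2 hM).mul a4 hP4 hL4).sub a4
      (hR4.mul a4 hP4 (TV.smul a4 hP4 hr2 hM))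
    -- the disc matrices
    have hce : TOK 3 lf t (((cc1 b' b'.de : ℝ) / UU : ℝ) : ℂ) (cE3 A b') :=
      tc (cst_nat hA3 hP (cc1 b' b'.de)) (by push_cast; ring)
    have het : TOK 3 lf t (((cc1 b' b'.et : ℝ) / UU : ℝ) : ℂ) (cst A (cc1 b' b'.et) (nat_lit 0)) :=
      tc (cst_nat hA3 hP (cc1 b' b'.et)) (by push_cast; ring)
    have h3 : TOK 3 lf t (Complex.I * ((-2 * th - th : ℝ) : ℂ)) (m3M A K.s.it) :=
      tc (TOK_neg hA3 hP (hK.it.add hA3 (TOK_db hA3 hK.it))) (by push_cast; ring)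
    have hcf : TOK 3 lf t ((((cc1 b' b'.et : ℝ) / UU : ℝ) : ℂ) * (Complex.I * ((-2 * th - th : ℝ) : ℂ)))
        (cF3 A K b') := het.mul hA3 hP h3
    have hcq := TV.smul hA3 hP hce hK.Q
    have hE := (TV.smul hA3 hP hce hK.Qd).add hA3
      ((hcq.mul hA3 hP hl).sub hA3 ((TV_r2 hA3 hF hr).mul hA3 hP hcq))
    have hFF := TV.smul hA3 hP hcf hK.Q
    have A1 := q4T_ok hN hT hP4 hM hz0 hz1 hA q3
    have A2 := q4T_ok hN hT hP4 hM hz0 hz1 hA2 q4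
    have B1 := q4E_ok hN hD hT.up hP4 hM hz0 hz1 (((TV.smul a4 hP4 h4 hA).add a4 hbc).add a4 hg)
      hE hFF oE oF n1 n2 q5
    have B2 := q4E_ok hN hD hT.up hP4 hM hz0 hz1 (((TV.smul a4 hP4 h4 hA2).add a4 hbc).add a4 hg)
      hE hFF oE oF n1 n2 q6
    refine gi_tail H h2 h2' (mu_ne hμ) hh hd0 hn2 o1 o2 hz rfl rfl rfl rfl rfl A1 A2 ?_ ?_
    · rw [bF_disc2 q1' q2']
      exact B1
    · rw [bF_disc2 q1' q2']
      exact B2

end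

end Pool.Agent.Helper45.M2
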