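import Pool.Agent.Helper45.M2.CK
import Pool.Agent.Helper45.M2.LB
import Pool.Agent.Helper91.FU.L

/-!
MP_c75db0, Plan W: the instance of the item tests of a cell with the tests of `Helper45.M2` for the
kinds `6`, `7`: laws; a piece of the window from the tests of a cell.
-/

set_option autoImplicit false
noncomputable section
namespace Pool.Agent.Helper45.M2

open Matrix
open Pool.Agent.Helper90.KMO (UU UU_pos cz)
open Pool.Agent.Helper90.KMT (PT)
open Pool.Agent.Helper86.C75 (Z)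
open Pool.Agent.Helper86.CX (Cx andB)
open Pool.Agent.Helper86.CT (N3 Alg Mo KM nx A4)
open Pool.Agent.Helper17.K9 (V9)
open Pool.Agent.Helper17.N9 (Kf Te KfM)
open Pool.Agent.Helper12.TE (KA KB itJX ALW BLW aIX BLW_K TrE TrE_ok)
open Pool.Agent.Helper90.C9 (tfY)
open Pool.Agent.Helper62.NBD (BP GB)
open Pool.Agent.Helper62.NBW (nth nth_t)
open Pool.Agent.Helper62.NBX (P_67)
open Pool.Agent.Helper26.XH (FH hL hR hH)
open Pool.Agent.Helper26.IT (condB Pd_k)
open Pool.Agent.Helper26.SF (Sf sfOK sfM sf_pos)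
open Pool.Agent.Helper51.FR (andB_t' RTK)
open Pool.Agent.Helper82.TST (Fr frA frB frK frN frR frS)
open Pool.Agent.Helper82.FRD (frOK)
open Pool.Agent.Helper91.BX (PcG)
open Pool.Agent.Helper91.TM
open Pool.Agent.Helper91.TMK
open Pool.Agent.Helper91.TMK.IT (nA)
open Pool.Agent.Helper91.TMK.TST
open Pool.Agent.Helper91.TMK.SW
open Pool.Agent.Helper91.TMK.NBW
open Pool.Agent.Helper91.TMK.NBX
open Pool.Agent.Helper91.TMK.ITF (TOK_sf')
open Pool.Agent.Helper6.MONO (V3 fB)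
open Pool.Agent.Helper6.MONO.W2 (Mt NT IN rfJ rfd nX nMd Sy sDm phi sat sati Pd cs sc sc_cs nW SPC
  chR ptF_k)
open Pool.Agent.Helper6.MONO.W2.TY (r4T)
open Pool.Agent.Helper21.SW (Mu cK sc_mod sc_div2 T4 lf4 SE)
open Pool.Agent.Helper21.TC


variable {α κ γ δ : Type}

section

variable {lf : Mch α} {M : Mn α} {C : Cel κ} {q r : ℕ} {x : ℝ} {t : ℕ → ℝ} {d : GB α}

/-- **THE LAWS OF THE ITEMS, ALL KINDS** -/
theorem itl_Y (hM : MnL lf M) {T : TK α κ γ} {KV : κ → (ℕ → ℝ) → Mt}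
    (hT : TKL lf (nM 3 lf) KV T) {D : TD α κ γ δ} (hD : TDL lf (nM 3 lf) KV D) {a : KA α κ γ}
    (ha : ALW lf KV M a) {b : KB κ} (hb' : BLW lf KV M b) (hC : PtC lf M C q r x t)
    (hdc : lf.vl d.nd.c) (hds : lf.vl d.nd.s) (hb : C.D.gb = true → gbB M C d = true) :
    ∃ bc : ℕ → ℕ → Prop,
      (C.D.gb = true → ∀ n, C.D.nB < n → ∃ i < C.D.NB, bc i n) ∧
      ITL lf KV (itY M T D a b d) C q r x t (RTK C.tb (nW (phi C.D.p) (vX C q r x)) bc) := by
  have hA := hM.a3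
  obtain ⟨htt, hx1, two, tan, _, _⟩ := ptF_k hC.hp hC.hpq hC.hqr hC.hr4 hC.hxA hC.hx2
  obtain ⟨h, hG⟩ : ∃ h : ℝ, C.D.gb = true →
      GPt lf C.D.p (vX C q r x) (wX C q r x) t (glM M C d) h ∧
      ∀ n, C.D.nB < n → ∃ i < C.D.NB, bcT h d.bp i n := by
    by_cases hg : C.D.gb = true
    · obtain ⟨h, H⟩ := gb_pt hM hC hdc hds hg (hb hg)
      exact ⟨h, fun _ => H⟩
    · exact ⟨0, fun h => absurd h hg⟩
  refine ⟨bcT h d.bp, fun hg => (hG hg).2, ⟨?_, ?_⟩⟩
  · intro c P i j Sl Sr gs S S' hk hl hr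
    rcases condB hk with ⟨h6, h7⟩ | h7
    · obtain ⟨g, rfl⟩ : ∃ g : Sy, c = sc g := ⟨cs c, (sc_cs c).symm⟩
      have ecs : cs (sc g) = g := Pool.Agent.Helper6.MONO.W2.TY.cs_sc g
      obtain ⟨g1, g2⟩ := andB_t' h7
      rcases condB g2 with ⟨z1, _⟩ | g2
      · obtain ⟨z2, z3⟩ := andB_t' z1
        have z4 : P = 14 := Nat.eq_of_beq_eq_true z2
        obtain ⟨y, _, z5⟩ := nth_t z3
        have z6 := ha (bc := bcT h d.bp) hC z5 hl hr
        rw [z4]
        exact z6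
      obtain ⟨g3, g4⟩ := andB_t' (show andB C.D.gb (Nat.beq (Nat.div (sc g) (nat_lit 2))
        (nat_lit 2)) = true from g1)
      have e2 : g.2 = 2 := by
        have k : Nat.div (sc g) 2 = 2 := Nat.eq_of_beq_eq_true g4
        rwa [sc_div2] at k
      obtain ⟨μ, th, hd, P', N, Pd', Nd, m1, m2, m3, m4⟩ := (hG g3).1.sp g.1
      have hh := (hG g3).1.h1
      rw [sc_mod] at g2
      replace m3 : SPC (rfJ 1 (vX C q r x) * sDm (phi C.D.p) g.1 g.2)
          (rfd 1 0 (vX C q r x) (wX C q r x) * sDm (phi C.D.p) g.1 g.2) μ (-star μ ^ 2) th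
          (-2 * th) h hd P' N Pd' Nd := by
        rw [e2]
        exact m3
      rcases P_67 h6 with e | e
      · have ee : Nat.beq (Nat.mod P (nat_lit 8)) (nat_lit 6) = true := by
          show Nat.beq (P % 8) 6 = true
          rw [e]
          rfl
        unfold gKD at g2
        rw [ee] at g2
        rw [ecs, Pd_k, e]
        obtain ⟨y, _, g5⟩ := nth_t (show nth gs (fun g' => bxK M.A T (C.H M) (glM M C d g.1)
          (Nat.div P (nat_lit 8)) (C.fo i) (C.fo j) Sl Sr g') (nat_lit 0) = true from g2)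
        exact bxK_ok hA hT hC.hP two tan hC.H m3 m2 m4 hl hr g5
      · have ee : Nat.beq (Nat.mod P (nat_lit 8)) (nat_lit 6) = false := by
          show Nat.beq (P % 8) 6 = false
          rw [e]
          rfl
        unfold gKD at g2
        rw [ee] at g2
        rw [ecs, Pd_k, e]
        intro n hn
        exact btD_ok hM.n hT hD hC.hP two tan hC.H m3 m2 hh m1 m4 hl hr (show btD M.A T D (C.H M)
          (glM M C d g.1) d.bp (Nat.div P (nat_lit 8)) (C.fo i) (C.fo j) Sl Sr gs = true from g2)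
          hn
    · obtain ⟨y, _, g5⟩ := nth_t h7
      exact ha hC g5 hl hr
  · intro c P i f m hk
    rcases condB hk with ⟨h6, h7⟩ | h7
    · rcases condB h7 with ⟨z1, _⟩ | h7
      · obtain ⟨z2, z3⟩ := andB_t' z1
        have z4 : P = 14 := Nat.eq_of_beq_eq_true z2
        have z6 := hb' (bc := bcT h d.bp) hC z3
        rw [z4]
        exact z6
      unfold itGJ at h7
      rw [h6] at h7
      obtain ⟨g, rfl⟩ : ∃ g : Sy, c = sc g := ⟨cs c, (sc_cs c).symm⟩
      have ecs : cs (sc g) = g := Pool.Agent.Helper6.MONO.W2.TY.cs_sc g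
      obtain ⟨g1, g2⟩ := andB_t' (show andB (isG C.D.gb (sc g)) (gJ M T C (glM M C d (Nat.beq
        (Nat.mod (sc g) (nat_lit 2)) (nat_lit 1))) d.bp (Nat.mod P (nat_lit 8))
        (Nat.div P (nat_lit 8)) i f m) = true from h7)
      obtain ⟨g3, g4⟩ := andB_t' (show andB C.D.gb (Nat.beq (Nat.div (sc g) (nat_lit 2))
        (nat_lit 2)) = true from g1)
      have e2 : g.2 = 2 := by
        have k : Nat.div (sc g) 2 = 2 := Nat.eq_of_beq_eq_true g4
        rwa [sc_div2] at k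
      obtain ⟨μ, th, hd, P', N, Pd', Nd, m1, m2, m3, m4⟩ := (hG g3).1.sp g.1
      have hh := (hG g3).1.h1
      rw [sc_mod] at g2
      replace m3 : SPC (rfJ 1 (vX C q r x) * sDm (phi C.D.p) g.1 g.2)
          (rfd 1 0 (vX C q r x) (wX C q r x) * sDm (phi C.D.p) g.1 g.2) μ (-star μ ^ 2) th
          (-2 * th) h hd P' N Pd' Nd := by
        rw [e2]
        exact m3
      obtain ⟨hfr, g2⟩ := andB_t' g2
      obtain ⟨hsf, g2⟩ := andB_t' g2
      have r0 := sf_pos hsf hC.hP le_rfl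
      have hS := TOK_sf' hA hC.hP le_rfl hM.qd m.2
      have hKf : HK 3 lf t ((frR (C.fq i))ᴴ * KV (C.fo i) t * frR (C.fq i))
          (frK M.A (C.fq i) (T.km (C.fo i))) :=
        (hT.km (k := C.fo i) hC.hP).g9 hA hC.hP (TV_frA hA hC.hP _)
      have hKg : HK 3 lf t ((frR (C.fq f))ᴴ * KV (C.fo f) t * frR (C.fq f))
          (frK M.A (C.fq f) (T.km (C.fo f))) :=
        (hT.km (k := C.fo f) hC.hP).g9 hA hC.hP (TV_frA hA hC.hP _)
      have hI := TLI_mk hA hC.hP hC.H.hc m4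
      rcases P_67 h6 with e | e
      · have ee : Nat.beq (Nat.mod P (nat_lit 8)) (nat_lit 6) = true := by
          show Nat.beq (P % 8) 6 = true
          rw [e]
          rfl
        unfold gI at g2
        rw [ee] at g2
        rw [ecs, Pd_k, e]
        exact bxI_ok hA (g3V_ok hM) hC.hP two m3 m2 m4 hI hfr hKf hKg r0 hS (show bxI M.A (g3V M)
          (glM M C d g.1) (liM M.A (C.H M).c (glM M C d g.1)) (Nat.div P (nat_lit 8)) (C.fq i)
          (C.fq f) m.1 (sfM M.A M.qd m.2) (frK M.A (C.fq i) (T.km (C.fo i)))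
          (frK M.A (C.fq f) (T.km (C.fo f))) = true from g2)
      · have ee : Nat.beq (Nat.mod P (nat_lit 8)) (nat_lit 6) = false := by
          show Nat.beq (P % 8) 6 = false
          rw [e]
          rfl
        unfold gI at g2
        rw [ee] at g2
        rw [ecs, Pd_k, e]
        intro n hn
        exact btI_ok hM.n (g4V_ok hM) hC.hP two m3 m2 hh m4 hI hfr hKf hKg r0 hS (show btI M.A
          (g4V M) (glM M C d g.1) (liM M.A (C.H M).c (glM M C d g.1)) d.bp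
          (Nat.div P (nat_lit 8)) (C.fq i) (C.fq f) m.1 (sfM M.A M.qd m.2)
          (frK M.A (C.fq i) (T.km (C.fo i))) (frK M.A (C.fq f) (T.km (C.fo f))) = true from g2) hn
    · exact hb' hC h7

end

/-! ### a cell -/

/-- **THE LAWS OF THE TESTS WITH DISC MATRICES** -/
theorem TDS_ok : TDL lfT (nM 3 lfT) KV TDS where
  t {k1 k2 g M X E F t Mr Xr Er Fr d1 d2} oE oF h hP hM hX hE hF e1 e2 := by
    have hP3 : PT 3 t := Pool.Agent.Helper91.TMK.PT.dn hP
    rcases condB (show cond (t4D k1 k2 g M X (dmE E) (dmE F)) true (t4O k1 k2 g M X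
      (cvV MT.V4 A4 (Pool.Agent.Helper91.BX.upV E)) (cvV MT.V4 A4 (Pool.Agent.Helper91.BX.upV F))) =
      true from h) with ⟨h, _⟩ | h
    · obtain ⟨o, _⟩ := andB_t' h
      obtain ⟨o1, o2⟩ := andB_t' o
      obtain ⟨o1, _⟩ := andB_t' o1
      obtain ⟨o2, _⟩ := andB_t' o2
      exact t4D_ok hP hM hX (dmE_ok hP3 hE o1) (dmE_ok hP3 hF o2) e1 e2 h
    · obtain ⟨o1, h⟩ := andB_t' h
      obtain ⟨o2, h⟩ := andB_t' h
      have hV4 := MT_ok.V4
      have up : ∀ {N : Mt} {V : V9 TP}, TV 3 lfT t N V →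
          TV 4 (nM 3 lfT) t N (Pool.Agent.Helper91.BX.upV V) := fun {N V} hV => by
        have h1 := TV.up MT_ok.n hV (t 3)
        rw [tu_id] at h1
        exact h1
      exact TrE_ok h hP (TV_cv Pool.Agent.Helper21.SW.a4 hV4 hP hM o1)
        (TV_cv Pool.Agent.Helper21.SW.a4 hV4 hP hX o2)
        (TV_cv Pool.Agent.Helper21.SW.a4 hV4 hP (up hE) oE)
        (TV_cv Pool.Agent.Helper21.SW.a4 hV4 hP (up hF) oF) e1 e2

section

variable {γ : Type}

/-- THE ITEM TESTS, the kinds 0 - 5 given; `T`: the tests of the kinds 6, 7 -/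
def itTY (T : TK TP Kf γ) (D : TD TP Kf γ δ) (a : KA TP Kf γ) (b : KB Kf)
    (C : Cel Kf) (g : GN) : IT TP Kf (List γ) (Mu × Sf) :=
  itY MT T D a b (dT C g)
/-- **THE TESTS OF A CELL**, the kinds 0 - 5 given; `T0`: the tests of the gauge -/
structure CelY (T0 : Pool.Agent.Helper21.SW.TK Kf γ) (I : IT TP Kf (List γ) (Mu × Sf))
    (C : Cel Kf) (g : GN) (ms : List (List Mu)) (E : SE) : Prop where
  ck : Pool.Agent.Helper12.NKT.ck C.D = true
  ce : ceK MT C = true
  le : leA MT C = true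
  gb : gbT C g = true
  it : ItsA MT I C C.D.it
  i1 : IvsA I C C.D.i1
  ic : Pool.Agent.Helper38.FI.incK C ms = true
  se : seK MT G3 (TT T0) C E = true

/-- **A PIECE OF THE WINDOW FROM THE TESTS OF A CELL** -/
theorem CelY.pc {T0 : Pool.Agent.Helper21.SW.TK Kf γ} (hT0 : Pool.Agent.Helper21.SW.TKL KV T0)
    {T : TK TP Kf γ} (hT : TKL lfT (nM 3 lfT) KV T)
    {D : TD TP Kf γ δ} (hD : TDL lfT (nM 3 lfT) KV D) {a : KA TP Kf γ} (ha : ALW lfT KV MT a)
    {b : KB Kf} (hb : BLW lfT KV MT b) {C : Cel Kf}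
    {g : GN} {ms : List (List Mu)} {E : SE} (h : CelY T0 (itTY T D a b C g) C g ms E)
    (h4 : r4T C.D.p C.B.A0 C.B.ra C.B.S0 C.B.rs = true) {Q : ℕ → ℕ → ℝ → Prop} {m : ℝ}
    (hQ : ∀ q r x, Q q r x → C.D.gb = true → 0 ≤ fB C.D.p q r x) :
    PcG Q C.D.p m C.B.A0 C.B.A1 C.B.ra C.B.S0 C.B.S1 C.B.rs C.S C.B.W0 C.S C.B.W1 := by
  have hg : C.D.gb = true → gbB MT C (dT C g) = true := by
    intro e
    have k := h.gb
    unfold gbT at k
    rw [e] at k
    exact k
  have h7 : C.D.gb = true → 4 ≤ C.D.p := fun e => by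
    have k : 7 ≤ C.D.p := Nat.le_of_ble_eq_true (Pool.Agent.Helper90.KMO.andB_t (hg e)).1
    omega
  have hI : CelK MT (itTY T D a b C g) C := ⟨h.ck, h.ce, h.le, h.it, h.i1⟩
  have hL : CelL lfT KV MT (itTY T D a b C g) C E.U (Pool.Agent.Helper82.TST.uv E.y)
      Pool.Agent.Helper51.FR.cbd := {
    gb := h7
    it := fun hC => itl_Y MT_ok hT hD ha hb hC (dT_vl hC g).1 (dT_vl hC g).2 hg
    ic := fun hC => Pool.Agent.Helper38.FI.incK_ok hC.hP hC.two h.ic
    se := fun hC => hC.sf MT_ok (TT_ok hT0) (g3V_ok MT_ok) h.se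
    ind := seK_ind h.se }
  exact hI.pc MT_ok hL h4 hQ

end

end Pool.Agent.Helper45.M2
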