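import Pool.Agent.Helper45.M2.K

/-!
MP_c75db0, Plan W: THE TAIL OF THE RUNS OF A ROTATION WITH DISC MATRICES (`Helper12.TE.B`) with disc
matrices of three parameters, any data of a disc matrix: kernel side.
-/

set_option autoImplicit false
noncomputable section
namespace Pool.Agent.Helper45.M2

open Matrix
open Pool.Agent.Helper90.KMO (UU UU_pos UUc_ne cz zv zv_p andB_t)
open Pool.Agent.Helper90.KMT (PT)
open Pool.Agent.Helper86.C75 (Z)
open Pool.Agent.Helper86.CX (Cx andB)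
open Pool.Agent.Helper86.CT (N3 Alg Mo KM mk cst addM subM mulM conjM invM invOK nx)
open Pool.Agent.Helper17.K9 (V9)
open Pool.Agent.Helper12.TE (bcM)
open Pool.Agent.Helper62.TVM (cstC zeM negM hfM V3m cstV addV subV negV smV mulV oV)
open Pool.Agent.Helper62.NBM (SN ND dbM)
open Pool.Agent.Helper62.NBD (BP GB)
open Pool.Agent.Helper62.NBV
open Pool.Agent.Helper62.NBW (nth nth_t pcB ggM adK zB zB_cz IzB_cz z_sq pc_z pc_a mu_norm
  nu_norm mu_ne)
open Pool.Agent.Helper26.XH (FH hL hR hH)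
open Pool.Agent.Helper26.IT (upK)
open Pool.Agent.Helper51.FR (andB_t')
open Pool.Agent.Helper91.BX (crM upM upV tu)
open Pool.Agent.Helper91.TMK
open Pool.Agent.Helper91.TMK.XH (HOK)
open Pool.Agent.Helper91.TMK.FR (cst_nat)
open Pool.Agent.Helper91.TMK.IT (nA)
open Pool.Agent.Helper91.TMK.TST
open Pool.Agent.Helper91.TMK.SW
open Pool.Agent.Helper91.TMK.NBW
open Pool.Agent.Helper6.MONO (V3)
open Pool.Agent.Helper6.MONO.W2 (Mt J1 NT NZ IN rfJ rfd nX nMd Sy sDm phi brJ SPC chS chC chD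
  chR chO chQ chR_pos chO_mul chO_le chQ_norm)
open Pool.Agent.Helper21.SW (cK lf4)

variable {α κ γ δ : Type}

/-- four tests with discs -/
def q4E (A : Alg α) (T : TD α κ γ δ) (k1 k2 : κ) (gs : List γ) (n : Nat)
    (M U V X : V9 (N3 α)) (E F : δ) : Bool :=
  andB (andB (nth gs (fun g => T.t k1 k2 g (addV (nx A) M U) X E F) n)
      (nth gs (fun g => T.t k1 k2 g (addV (nx A) M V) X E F) (Nat.add n (nat_lit 1))))
    (andB (nth gs (fun g => T.t k1 k2 g (subV (nx A) M U) X E F) (Nat.add n (nat_lit 2)))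
      (nth gs (fun g => T.t k1 k2 g (subV (nx A) M V) X E F) (Nat.add n (nat_lit 3))))

/-- sixteen tests: first direction at the ends, second direction at the ends -/
def btG (A : Alg α) (T : TK α κ γ) (D : TD α κ γ δ) (k1 k2 : κ) (gs : List γ)
    (M U V A1 A2 B1 B2 G : V9 (N3 α)) (E F : δ) : Bool :=
  andB (andB (q4T A T k1 k2 gs (nat_lit 0) M U V A1) (q4T A T k1 k2 gs (nat_lit 4) M U V A2))
    (andB (q4E A D k1 k2 gs (nat_lit 8) M U V (addV (nx A) B1 G) E F)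
      (q4E A D k1 k2 gs (nat_lit 12) M U V (addV (nx A) B2 G) E F))
def btH (A : Alg α) (T : TK α κ γ) (D : TD α κ γ δ) (k1 k2 : κ) (gs : List γ)
    (M U V A1 A2 B1 B2 G : V9 (N3 α)) (E F : V9 α) : Bool :=
  andB (andB (D.ok E) (D.ok F)) (btG A T D k1 k2 gs M U V A1 A2 B1 B2 G (D.cv E) (D.cv F))

/-- `t1² x` -/
def cc1 (b : BP) (x : Nat) : Nat :=
  Nat.add (Nat.shiftRight (Nat.mul (Nat.mul b.t1 b.t1) x) (nat_lit 96)) (nat_lit 1)
/-- `c Q' + gg (c Q)` -/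
def dE3 (A : Alg α) (K : LC α) (L R : V9 α) (c : Mo α) : V9 α :=
  addV A (smV A c K.Qd) (ggM A (smV A c K.Q) L R)
/-- the factors: `t1² de`, `t1² et (- 3 i θ')` -/
def cE3 (A : Alg α) (b : BP) : Mo α := cst A (cc1 b b.de) (nat_lit 0)
def cF3 (A : Alg α) (K : LC α) (b : BP) : Mo α :=
  mulM A (cst A (cc1 b b.et) (nat_lit 0)) (m3M A K.s.it)

def btJ (A : Alg α) (T : TK α κ γ) (D : TD α κ γ δ) (K : LC α) (k1 k2 : κ) (gs : List γ) (b : BP)
    (r r2 : Mo (N3 α)) (M U V B : V9 (N3 α)) (L R : V9 α) : Bool :=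
  btH A T D k1 k2 gs M U V (aK A K b.ka) (aHi A K b r) (cbM A K (aK A K b.ka) B)
    (cbM A K (aHi A K b r) B) (ggM (nx A) (smV (nx A) r2 M) (upV L) (upV R))
    (dE3 A K L R (cE3 A b)) (smV A (cF3 A K b) K.Q)
def btD1 (A : Alg α) (T : TK α κ γ) (D : TD α κ γ δ) (F : FH α) (K : LC α) (k1 k2 : κ)
    (Sl Sr : V9 α) (gs : List γ) (b : BP) (r r2 : Mo (N3 α)) (M U V : V9 (N3 α)) : Bool :=
  cond b.ex
    (andB (laB b) (bt1 A T F K k1 k2 Sl Sr gs b r r2 M U V (ttM A K b r) (bbM A K b r)))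
    (btJ A T D K k1 k2 gs b r r2 M U V (bcM A K r) Sl (r2M A F Sr))
def btD0 (A : Alg α) (T : TK α κ γ) (D : TD α κ γ δ) (F : FH α) (K : LC α) (k1 k2 : κ)
    (Sl Sr : V9 α) (gs : List γ) (b : BP) (r : Mo (N3 α)) : Bool :=
  btD1 A T D F K k1 k2 Sl Sr gs b r (mulM (nx A) r r) (mM A K.N K.C r) (z0M A K.Q b)
    (z1M A K.Q b)
/-- kind 7, a piece -/
def btD (A : Alg α) (T : TK α κ γ) (D : TD α κ γ δ) (F : FH α) (K : LC α) (bp : List BP) (i : Nat)
    (k1 k2 : κ) (Sl Sr : V9 α) (gs : List γ) : Bool :=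
  nth bp (fun b => andB (pcB b) (btD0 A T D F K k1 k2 Sl Sr gs b (rrM A b))) i

end Pool.Agent.Helper45.M2
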