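import Pool.Agent.Helper45.M2.B

/-!
MP_c75db0, Plan W: the instance of the item tests of a cell with the tests of `Helper45.M2` for the
kinds `6`, `7`: kernel side.
-/

set_option autoImplicit false
noncomputable section
namespace Pool.Agent.Helper45.M2

open Matrix
open Pool.Agent.Helper90.KMO (UU UU_pos cz)
open Pool.Agent.Helper90.KMT (PT)
open Pool.Agent.Helper86.C75 (Z)
open Pool.Agent.Helper86.CX (Cx andB)
open Pool.Agent.Helper86.CT (N3 Alg Mo KM nx A4)
open Pool.Agent.Helper17.K9 (V9)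
open Pool.Agent.Helper17.N9 (Kf Te KfM)
open Pool.Agent.Helper12.TE (KA KB itJX)
open Pool.Agent.Helper90.C9 (tfY)
open Pool.Agent.Helper62.NBD (BP GB)
open Pool.Agent.Helper62.NBW (nth nth_t)
open Pool.Agent.Helper62.NBX (P_67)
open Pool.Agent.Helper26.XH (FH hL hR hH)
open Pool.Agent.Helper26.IT (condB Pd_k)
open Pool.Agent.Helper26.SF (Sf sfOK sfM sf_pos)
open Pool.Agent.Helper51.FR (andB_t' RTK)
open Pool.Agent.Helper82.TST (Fr frA frB frK frN frR frS)
open Pool.Agent.Helper82.FRD (frOK)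
open Pool.Agent.Helper91.BX (PcG)
open Pool.Agent.Helper91.TM
open Pool.Agent.Helper91.TMK
open Pool.Agent.Helper91.TMK.IT (nA)
open Pool.Agent.Helper91.TMK.TST
open Pool.Agent.Helper91.TMK.SW
open Pool.Agent.Helper91.TMK.NBW
open Pool.Agent.Helper91.TMK.NBX
open Pool.Agent.Helper91.TMK.ITF (TOK_sf')
open Pool.Agent.Helper6.MONO (V3 fB)
open Pool.Agent.Helper6.MONO.W2 (Mt NT IN rfJ rfd nX nMd Sy sDm phi sat sati Pd cs sc sc_cs nW SPC
  chR ptF_k)
open Pool.Agent.Helper6.MONO.W2.TY (r4T)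
open Pool.Agent.Helper21.SW (Mu cK sc_mod sc_div2 T4 lf4 SE)
open Pool.Agent.Helper21.TC

variable {α κ γ δ : Type}

/-- kinds 6 and 7 -/
def gKD (A : Alg α) (T : TK α κ γ) (D : TD α κ γ δ) (F : FH α) (K : LC α) (bp : List BP) (k n : Nat)
    (k1 k2 : κ) (Sl Sr : V9 α) (gs : List γ) : Bool :=
  cond (Nat.beq k (nat_lit 6)) (nth gs (fun g => bxK A T F K n k1 k2 Sl Sr g) (nat_lit 0))
    (btD A T D F K bp n k1 k2 Sl Sr gs)
/-- **ONE ITEM, ALL KINDS**; a run of length `1` (`P = 14`) may also be tested as a rotation -/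
def itGY (M : Mn α) (T : TK α κ γ) (D : TD α κ γ δ) (a : KA α κ γ) (C : Cel κ) (d : GB α)
    (c P i j : Nat) (Sl Sr : V9 α) (gs : List γ) : Bool :=
  cond (Nat.ble (nat_lit 6) (Nat.mod P (nat_lit 8)))
    (andB (isG C.D.gb c) (cond (andB (Nat.beq P (nat_lit 14))
        (nth gs (fun g => a C c (nat_lit 0) i j Sl Sr g) (nat_lit 0))) true
      (gKD M.A T D (C.H M) (glM M C d (Nat.beq (Nat.mod c (nat_lit 2))
        (nat_lit 1))) d.bp (Nat.mod P (nat_lit 8)) (Nat.div P (nat_lit 8)) (C.fo i) (C.fo j) Sl Sr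
        gs)))
    (nth gs (fun g => a C c P i j Sl Sr g) (nat_lit 0))
/-- THE INSTANCE -/
def itY (M : Mn α) (T : TK α κ γ) (D : TD α κ γ δ) (a : KA α κ γ) (b : KB κ) (d : GB α) :
    IT α κ (List γ) (Mu × Sf) :=
  ⟨fun C c P i j Sl Sr gs => itGY M T D a C d c P i j Sl Sr gs,
    fun C c P i f m => itJX M T b C d c P i f m⟩

end Pool.Agent.Helper45.M2
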