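import Pool.Agent.Helper45.M2.K
import Pool.Agent.Helper91.FU.Y

/-!
MP_c75db0, Plan W: tests of the kinds `6`, `7` through kernel S: the matrices of the Taylor machine at
the nodes; the laws of the tests without discs.
-/

set_option autoImplicit false
set_option exponentiation.threshold 60000
noncomputable section
namespace Pool.Agent.Helper45.M2

open Pool.Agent.Helper86.CX (andB)
open Pool.Agent.Helper86.CT (N3 Mo mk)
open Pool.Agent.Helper90.C75 (Vt avg bt)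
open Pool.Agent.Helper90.KMO (UU UU_pos UUc_ne)
open Pool.Agent.Helper90.KMT (PT c3)
open Pool.Agent.Helper17.K9 (V9)
open Pool.Agent.Helper17.N9
open Pool.Agent.Helper6.MONO.W2 (Mt NT)
open Pool.Agent.Helper91.BX (tu tu_self tu_lt avg_bt')
open Pool.Agent.Helper91.FU (FV FM FV_to FM_to RM RM_lif nv4_ok TFL q3 e9W lifW toF toF1 toF2 toF1_k
  FP F9 W9 okE9 f9V dgT)
open Pool.Agent.Helper91.TM (TP AT AT_okn AT_ok lfT)
open Pool.Agent.Helper91.TMK (TOK TV nM vt_mk avg_btc)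
open Pool.Agent.Helper91.TMK.SW (TK TKL)
open Pool.Agent.Helper45.N9S
open Pool.Agent.Helper45.N9S.RR
open Finset Matrix

variable {t : ℕ → ℝ} {f : ℂ}

theorem fk_ok {f : Nat → Bool} {k : Nat} (h : fk f k = true) : f k = true := by
  cases k with
  | zero => exact h
  | succ n => exact h

theorem tu_id (t : ℕ → ℝ) : tu 3 t (t 3) = t := by
  funext j
  unfold tu
  split_ifs with h
  · rw [h]
  · rfl

/-- a rounded model of a model -/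
theorem F2_ok (hP : PT 3 t) {x : TP} {r : ℕ} (hv : lfT.vl x)
    (h : lfT.gd x → ‖(UU : ℂ) * f - lfT.ev x t‖ ≤ r) : FV 1 t f (toF2 x r) :=
  FV_to (M := mk AT x r) hP ⟨vt_mk AT_ok hv r, h⟩

theorem F2_k {x : TP} {r : ℕ} (h : (toF2 x r).k = true) : lfT.gd x :=
  (andB2 (toF1_k x r _ h)).1

/-- the values of a quadratic function of the last parameter -/
theorem ent_ok (hP : PT 4 t) {m : Mo (N3 TP)} (h : TOK 4 (nM 3 lfT) t f m)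
    (ka : (gA m).k = true) (kc : (gC m).k = true) (kb : (gB m).k = true) :
    ∃ a c b : ℂ, (FV 1 t a (gA m) ∧ FV 1 t c (gC m) ∧ FV 1 t b (gB m)) ∧
      f = (((1 - t 3) * (1 - 2 * t 3) : ℝ) : ℂ) * a + ((4 * t 3 * (1 - t 3) : ℝ) : ℂ) * c +
        ((t 3 * (2 * t 3 - 1) : ℝ) : ℂ) * b := by
  have hP3 : PT 3 t := Pool.Agent.Helper91.TMK.PT.dn hP
  obtain ⟨v, r, B, l⟩ := m
  cases v with
  | k x =>
    have hv : lfT.vl x := h.val.vl 0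
    have h1 : FV 1 t f (toF2 x r) := F2_ok hP3 hv fun hg => by
      have h2 := h.mod (fun _ => hg)
      have h3 : (nM 3 lfT).ev (N3.k x) t = lfT.ev x t := avg_btc _ _
      rw [h3] at h2
      exact h2
    refine ⟨f, f, f, ⟨h1, h1, h1⟩, ?_⟩
    push_cast
    ring
  | q a c b =>
    have va : lfT.vl a := h.val.vl 0
    have vc : lfT.vl c := h.val.vl 1
    have vb : lfT.vl b := h.val.vl 2
    have ga : lfT.gd a := F2_k (show (toF2 a r).k = true from ka)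
    have gb : lfT.gd b := F2_k (show (toF2 b r).k = true from kb)
    have gq : lfT.gd (AT.q4 (AT.add (AT.add a b) (AT.add c c))) :=
      F2_k (show (toF2 (AT.q4 (AT.add (AT.add a b) (AT.add c c))) (Nat.add r (nat_lit 2))).k = true
        from kc)
    have v1 := AT_okn.vadd va vb
    have v2 := AT_okn.vadd vc vc
    have v3 := AT_okn.vadd v1 v2
    obtain ⟨g3, e3⟩ := AT_okn.q4 v3 gq
    obtain ⟨g1, g2, e1⟩ := AT_okn.add v1 v2 g3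
    obtain ⟨-, -, e4⟩ := AT_okn.add va vb g1
    obtain ⟨gc, -, e5⟩ := AT_okn.add vc vc g2
    have hm := h.mod (fun i => by fin_cases i; exacts [ga, gc, gb])
    have hev : (nM 3 lfT).ev (N3.q a c b) t = (((1 - t 3) ^ 2 : ℝ) : ℂ) * lfT.ev a t +
        ((2 * t 3 * (1 - t 3) : ℝ) : ℂ) * lfT.ev c t + ((t 3 ^ 2 : ℝ) : ℂ) * lfT.ev b t :=
      avg_bt' (t 3) (fun i => lfT.ev (c3 (N3.q a c b) i) t)
    rw [hev] at hm
    have he := e3 t hP3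
    rw [e1 t, e4 t, e5 t] at he
    have hU : (UU : ℂ) ≠ 0 := UUc_ne
    have f0 : lfT.gd a → ‖(UU : ℂ) * ((lfT.ev a t) / UU + (f - ((((1 - t 3) ^ 2 : ℝ) : ℂ) *
        lfT.ev a t + ((2 * t 3 * (1 - t 3) : ℝ) : ℂ) * lfT.ev c t + ((t 3 ^ 2 : ℝ) : ℂ) *
        lfT.ev b t) / UU)) - lfT.ev a t‖ ≤ r := fun _ => by
      rw [show (UU : ℂ) * ((lfT.ev a t) / UU + (f - ((((1 - t 3) ^ 2 : ℝ) : ℂ) *
        lfT.ev a t + ((2 * t 3 * (1 - t 3) : ℝ) : ℂ) * lfT.ev c t + ((t 3 ^ 2 : ℝ) : ℂ) *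
        lfT.ev b t) / UU)) - lfT.ev a t = (UU : ℂ) * f - ((((1 - t 3) ^ 2 : ℝ) : ℂ) *
        lfT.ev a t + ((2 * t 3 * (1 - t 3) : ℝ) : ℂ) * lfT.ev c t + ((t 3 ^ 2 : ℝ) : ℂ) *
        lfT.ev b t) by field_simp; ring]
      exact hm
    have f2 : lfT.gd b → ‖(UU : ℂ) * ((lfT.ev b t) / UU + (f - ((((1 - t 3) ^ 2 : ℝ) : ℂ) *
        lfT.ev a t + ((2 * t 3 * (1 - t 3) : ℝ) : ℂ) * lfT.ev c t + ((t 3 ^ 2 : ℝ) : ℂ) *
        lfT.ev b t) / UU)) - lfT.ev b t‖ ≤ r := fun _ => by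
      rw [show (UU : ℂ) * ((lfT.ev b t) / UU + (f - ((((1 - t 3) ^ 2 : ℝ) : ℂ) *
        lfT.ev a t + ((2 * t 3 * (1 - t 3) : ℝ) : ℂ) * lfT.ev c t + ((t 3 ^ 2 : ℝ) : ℂ) *
        lfT.ev b t) / UU)) - lfT.ev b t = (UU : ℂ) * f - ((((1 - t 3) ^ 2 : ℝ) : ℂ) *
        lfT.ev a t + ((2 * t 3 * (1 - t 3) : ℝ) : ℂ) * lfT.ev c t + ((t 3 ^ 2 : ℝ) : ℂ) *
        lfT.ev b t) by field_simp; ring]
      exact hm
    have f1 : lfT.gd (AT.q4 (AT.add (AT.add a b) (AT.add c c))) →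
        ‖(UU : ℂ) * ((lfT.ev a t + 2 * lfT.ev c t + lfT.ev b t) / (4 * UU) +
        (f - ((((1 - t 3) ^ 2 : ℝ) : ℂ) *
        lfT.ev a t + ((2 * t 3 * (1 - t 3) : ℝ) : ℂ) * lfT.ev c t + ((t 3 ^ 2 : ℝ) : ℂ) *
        lfT.ev b t) / UU)) - lfT.ev (AT.q4 (AT.add (AT.add a b) (AT.add c c))) t‖ ≤
        ((Nat.add r (nat_lit 2) : ℕ) : ℝ) := fun _ => by
      rw [show (UU : ℂ) * ((lfT.ev a t + 2 * lfT.ev c t + lfT.ev b t) / (4 * UU) +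
        (f - ((((1 - t 3) ^ 2 : ℝ) : ℂ) *
        lfT.ev a t + ((2 * t 3 * (1 - t 3) : ℝ) : ℂ) * lfT.ev c t + ((t 3 ^ 2 : ℝ) : ℂ) *
        lfT.ev b t) / UU)) - lfT.ev (AT.q4 (AT.add (AT.add a b) (AT.add c c))) t =
        ((UU : ℂ) * f - ((((1 - t 3) ^ 2 : ℝ) : ℂ) *
        lfT.ev a t + ((2 * t 3 * (1 - t 3) : ℝ) : ℂ) * lfT.ev c t + ((t 3 ^ 2 : ℝ) : ℂ) *
        lfT.ev b t)) - (lfT.ev (AT.q4 (AT.add (AT.add a b) (AT.add c c))) t -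
        (lfT.ev a t + lfT.ev b t + (lfT.ev c t + lfT.ev c t)) / 4) by field_simp; ring]
      refine (norm_sub_le _ _).trans ?_
      have e6 : ((Nat.add r (nat_lit 2) : ℕ) : ℝ) = r + 2 := by
        show ((r + 2 : ℕ) : ℝ) = _
        push_cast
        ring
      rw [e6]
      have h7 : ‖(UU : ℂ) * f - ((((1 - t 3) ^ 2 : ℝ) : ℂ) *
        lfT.ev a t + ((2 * t 3 * (1 - t 3) : ℝ) : ℂ) * lfT.ev c t + ((t 3 ^ 2 : ℝ) : ℂ) *
        lfT.ev b t)‖ ≤ (r : ℝ) := hm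
      linarith
    refine ⟨_, _, _, ⟨F2_ok hP3 va f0, F2_ok hP3 (AT_okn.vq4 v3) f1, F2_ok hP3 vb f2⟩, ?_⟩
    push_cast
    field_simp
    ring

theorem okL {X : F9} {k : ℕ} (h : okE9 (e9W k (lifW X)) = true) : X.a.k = true ∧ X.b.k = true ∧
    X.c.k = true ∧ X.d.k = true ∧ X.e.k = true ∧ X.f.k = true ∧ X.g.k = true ∧ X.h.k = true ∧
    X.i.k = true := by
  obtain ⟨a1, h⟩ := andB2 h
  obtain ⟨a2, h⟩ := andB2 h
  obtain ⟨a3, h⟩ := andB2 h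
  obtain ⟨a4, h⟩ := andB2 h
  obtain ⟨a5, h⟩ := andB2 h
  obtain ⟨a6, h⟩ := andB2 h
  obtain ⟨a7, h⟩ := andB2 h
  obtain ⟨a8, a9⟩ := andB2 h
  exact ⟨(andB2 a1).1, (andB2 a2).1, (andB2 a3).1, (andB2 a4).1, (andB2 a5).1, (andB2 a6).1,
    (andB2 a7).1, (andB2 a8).1, (andB2 a9).1⟩

/-- **A MATRIX OF THE TAYLOR MACHINE AT THE NODES** -/
theorem nN_ok (hP : PT 4 t) {k : ℕ} (hk : k ≤ 20) {M : Mt} {V : V9 (N3 TP)}
    (h : TV 4 (nM 3 lfT) t M V) : NWL 4 lv4 qW4 t k M (nN V k) := by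
  refine ⟨fun ho => ?_⟩
  have ho' : andB (okE9 (e9W k (lifW (hA V)))) (andB (okE9 (e9W k (lifW (hC V))))
    (okE9 (e9W k (lifW (hB V))))) = true := ho
  obtain ⟨o0, o'⟩ := andB2 ho'
  obtain ⟨o1, o2⟩ := andB2 o'
  obtain ⟨p1, p2, p3, p4, p5, p6, p7, p8, p9⟩ := okL o0
  obtain ⟨q1, q2, q3, q4, q5, q6, q7, q8, q9⟩ := okL o1
  obtain ⟨r1, r2, r3, r4, r5, r6, r7, r8, r9⟩ := okL o2
  obtain ⟨a1, c1, b1, ⟨x1, y1, z1⟩, e1⟩ := ent_ok hP h.a p1 q1 r1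
  obtain ⟨a2, c2, b2, ⟨x2, y2, z2⟩, e2⟩ := ent_ok hP h.b p2 q2 r2
  obtain ⟨a3, c3, b3, ⟨x3, y3, z3⟩, e3⟩ := ent_ok hP h.c p3 q3 r3
  obtain ⟨a4, c4, b4, ⟨x4, y4, z4⟩, e4⟩ := ent_ok hP h.d p4 q4 r4
  obtain ⟨a5, c5, b5, ⟨x5, y5, z5⟩, e5⟩ := ent_ok hP h.e p5 q5 r5
  obtain ⟨a6, c6, b6, ⟨x6, y6, z6⟩, e6⟩ := ent_ok hP h.f p6 q6 r6
  obtain ⟨a7, c7, b7, ⟨x7, y7, z7⟩, e7⟩ := ent_ok hP h.g p7 q7 r7
  obtain ⟨a8, c8, b8, ⟨x8, y8, z8⟩, e8⟩ := ent_ok hP h.h p8 q8 r8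
  obtain ⟨a9, c9, b9, ⟨x9, y9, z9⟩, e9⟩ := ent_ok hP h.i p9 q9 r9
  have f0 : FM 1 t !![a1, a2, a3; a4, a5, a6; a7, a8, a9] (hA V) :=
    ⟨x1, x2, x3, x4, x5, x6, x7, x8, x9⟩
  have f1 : FM 1 t !![c1, c2, c3; c4, c5, c6; c7, c8, c9] (hC V) :=
    ⟨y1, y2, y3, y4, y5, y6, y7, y8, y9⟩
  have f2 : FM 1 t !![b1, b2, b3; b4, b5, b6; b7, b8, b9] (hB V) :=
    ⟨z1, z2, z3, z4, z5, z6, z7, z8, z9⟩
  have hP' : PT 4 (tu 3 t (t 3)) := by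
    rw [tu_id]
    exact hP
  have key := nv4_ok (c := 1) (k := k) (u := t 3) (M := M) (by norm_num) hk hP' ?_
    (RM_lif f0 (by norm_num)) (RM_lif f1 (by norm_num)) (RM_lif f2 (by norm_num))
  · rw [tu_id] at key
    exact (NWL_4 key).ex ho
  · ext i j
    fin_cases i <;> fin_cases j
    · exact e1
    · exact e2
    · exact e3
    · exact e4
    · exact e5
    · exact e6
    · exact e7
    · exact e8
    · exact e9

/-! ### the laws -/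

theorem t4N_ok (hP : PT 4 t) {k1 k2 : Kf} {g : Te} {M X : V9 (N3 TP)} {Mr Xr : Mt}
    (hM : TV 4 (nM 3 lfT) t Mr M) (hX : TV 4 (nM 3 lfT) t Xr X) (h : t4N k1 k2 g M X = true) :
    NT (KfM k1 t) (KfM k2 t) Xr Mr := by
  obtain ⟨h1, h2⟩ := andB2 (fk_ok h)
  have hk : u8 g.cs 32 ≤ 20 := ble_le h1
  refine tS_ok Ms4_ok (le_refl 4) hP (fun G => ?_) (nN_ok hP hk hM) (nN_ok hP hk hX) h2
  have := ndw_k 3 t G
  exact this

theorem t3N_ok (hP : PT 3 t) {k1 k2 : Kf} {g : Te} {M X : V9 TP} {Mr Xr : Mt}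
    (hM : TV 3 lfT t Mr M) (hX : TV 3 lfT t Xr X) (h : t3N k1 k2 g M X = true) :
    NT (KfM k1 t) (KfM k2 t) Xr Mr :=
  u3S_ok (c := 1) (by norm_num) hP (RM_lif (FM_to hP hM) (by norm_num))
    (RM_lif (FM_to hP hX) (by norm_num)) (fk_ok h)

/-- **THE LAWS OF THE TESTS** -/
theorem TKS_ok {T : TK TP Kf Te} (hT : TKL lfT (nM 3 lfT) KfM T) :
    TKL lfT (nM 3 lfT) KfM (TKS T) where
  t3 h hP hM hX := by
    rcases Pool.Agent.Helper26.IT.condB h with ⟨h, _⟩ | h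
    · exact t3N_ok hP hM hX h
    · exact hT.t3 h hP hM hX
  t4 h hP hM hX := by
    rcases Pool.Agent.Helper26.IT.condB h with ⟨h, _⟩ | h
    · exact t4N_ok hP hM hX h
    · exact hT.t4 h hP hM hX
  km := hT.km
  up := hT.up

theorem TrK_ok : TFL KfM TrK where
  t3 {k1 k2 g M X t Mr Xr} h hP hM hX := by
    have h' : fk (fun k => u3S k1 k2 g k M X) (u8 g.cs (nat_lit 32)) = true := h
    exact u3S_ok (by norm_num) hP hM hX (fk_ok h')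
  t4 {k1 k2 g M N P X Y Z t u Mr Xr m n p x y z} h _ hP h0 h1 h2 eM g0 g1 g2 eA := by
    have h' : fk (fun k => u4S k1 k2 g k M N P X Y Z) (u8 g.cs (nat_lit 32)) = true := h
    have := u4S_ok (by norm_num) hP h0 h1 h2 eM g0 g1 g2 eA (fk_ok h')
    rwa [Pool.Agent.Helper51.FR.KfM_tu, Pool.Agent.Helper51.FR.KfM_tu] at this

end Pool.Agent.Helper45.M2
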