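import Pool.Agent.Helper45.M2.T
import Pool.Agent.Helper45.M2.L
import Pool.Agent.Helper91.TM.S

/-!
MP_c75db0, Plan W: tests of the kinds `6`, `7` through kernel S: THE DISC MATRICES.
-/

set_option autoImplicit false
set_option exponentiation.threshold 60000
noncomputable section
namespace Pool.Agent.Helper45.M2

open Pool.Agent.Helper86.C75 (Z)
open Pool.Agent.Helper86.CX (Cx andB)
open Pool.Agent.Helper86.CT (N3 Mo mk A0)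
open Pool.Agent.Helper90.C75 (Vt avg bt wtT)
open Pool.Agent.Helper90.KMO (UU UU_pos UUc_ne cz zv zv_p)
open Pool.Agent.Helper90.KMT (PT lf0 A0_ok)
open Pool.Agent.Helper90.K9 (pk pz pk_add pk_congr)
open Pool.Agent.Helper17.K9 (V9)
open Pool.Agent.Helper17.N9
open Pool.Agent.Helper6.MONO.W2 (Mt NT)
open Pool.Agent.Helper91.TM (TP AT AT_okn lfT qtT qtT_ok c0T)
open Pool.Agent.Helper91.TMK (TOK TV nM)
open Pool.Agent.Helper45.N9S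
open Pool.Agent.Helper45.N9S.RR
open Finset Matrix

variable {t : ℕ → ℝ} {f : ℂ}

/-! ### entries -/

theorem zng_zv (x : Z) : zv (zng x) = -zv x := by
  cases x with
  | p n => rfl
  | m n =>
    show ((n : ℕ) : ℤ) = -(-(n : ℤ))
    ring

theorem cz_ngC (z : Cx) : cz (ngC z) = -cz z := by
  unfold ngC cz
  rw [zng_zv, zng_zv]
  push_cast
  apply Complex.ext <;> simp

theorem cz_zeC : cz zeC = 0 := by
  unfold zeC cz
  rw [zv_p]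
  apply Complex.ext <;> simp

theorem liT_ok {j : ℕ} (hj : j < 3) (z : Cx) : lfT.vl (liT j z) ∧ (lfT.gd (liT j z) →
    lfT.ev (liT j z) t = ((2 * t j - 1 : ℝ) : ℂ) * cz z) := by
  obtain ⟨h1, h2⟩ := qtT_ok hj (ngC z) zeC z
  refine ⟨h1, fun hg => ?_⟩
  have h3 : lfT.ev (liT j z) t = _ := h2 hg t
  rw [h3, cz_ngC, cz_zeC]
  push_cast
  ring

theorem e4a_ok (hP : PT 3 t) {m : Mo TP} (h : TOK 3 lfT t f m) {a b c d : Cx}
    (hr : (e4a m a b c d).r ≤ 2 ^ 100) :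
    ‖(UU : ℂ) * f - (cz a + ((2 * t 0 - 1 : ℝ) : ℂ) * cz b + ((2 * t 1 - 1 : ℝ) : ℂ) * cz c +
      ((2 * t 2 - 1 : ℝ) : ℂ) * cz d)‖ ≤ ((e4a m a b c d).r : ℝ) := by
  have hx := h.val.vl
  have v0 := AT_okn.vcs a
  obtain ⟨v1, l1⟩ := liT_ok (t := t) (j := 0) (by norm_num) b
  obtain ⟨v2, l2⟩ := liT_ok (t := t) (j := 1) (by norm_num) c
  obtain ⟨v3, l3⟩ := liT_ok (t := t) (j := 2) (by norm_num) d
  have w0 := AT_okn.vsub hx v0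
  have w1 := AT_okn.vsub w0 v1
  have w2 := AT_okn.vsub w1 v2
  have w3 := AT_okn.vsub w2 v3
  have er : (e4a m a b c d).r = m.r + AT.nb (reT m.v a b c d) := rfl
  have hn : AT.nb (reT m.v a b c d) < 2 ^ 150 := by
    have h1 : (2 : ℕ) ^ 100 < 2 ^ 150 := by norm_num
    omega
  have g3 : lfT.gd (reT m.v a b c d) := AT_okn.nbg w3 hn
  obtain ⟨g2, k3, e3⟩ := AT_okn.sub w2 v3 g3
  obtain ⟨g1, k2, e2⟩ := AT_okn.sub w1 v2 g2
  obtain ⟨g0, k1, e1⟩ := AT_okn.sub w0 v1 g1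
  obtain ⟨gm, k0, e0⟩ := AT_okn.sub hx v0 g0
  have hm := h.mod gm
  have h2 := AT_okn.mag w3 g3 t hP
  have e3' := e3 t
  rw [e2 t, e1 t, e0 t, AT_okn.cs _ k0 t] at e3'
  rw [e3', show lfT.ev (liT (nat_lit 0) b) t = _ from l1 k1,
    show lfT.ev (liT (nat_lit 1) c) t = _ from l2 k2,
    show lfT.ev (liT (nat_lit 2) d) t = _ from l3 k3] at h2
  rw [er]
  push_cast
  push_cast at h2
  have e : (UU : ℂ) * f - (cz a + (2 * (t 0 : ℂ) - 1) * cz b + (2 * (t 1 : ℂ) - 1) * cz c +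
      (2 * (t 2 : ℂ) - 1) * cz d) = ((UU : ℂ) * f - lfT.ev m.v t) +
      (lfT.ev m.v t - cz a - (2 * (t 0 : ℂ) - 1) * cz b - (2 * (t 1 : ℂ) - 1) * cz c -
      (2 * (t 2 : ℂ) - 1) * cz d) := by ring
  rw [e]
  exact (norm_add_le _ _).trans (add_le_add hm h2)

/-! ### matrices -/

abbrev TV0 (t : ℕ → ℝ) (Z : Mt) (V : V9 Cx) : Prop := Pool.Agent.Helper62.TVM.TV 0 lf0 t Z V

theorem m0_ok (z : Cx) : Pool.Agent.Helper90.KMT.TOK 0 lf0 t (cz z / UU) (m0 z) := by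
  refine ⟨Pool.Agent.Helper90.KMT.vt_mk A0_ok _ _, ?_⟩
  show ‖(UU : ℂ) * (cz z / UU) - avg (wtT 0 t) (lf0 z)‖ ≤ ((nat_lit 0 : ℕ) : ℝ)
  have e : avg (wtT 0 t) (lf0 z) = cz z := by
    show ∑ v : Unit, (((1 : ℝ) : ℂ)) * cz z = cz z
    simp
  rw [e, mul_div_cancel₀ _ UUc_ne, sub_self, norm_zero]
  norm_num

/-- the coefficients -/
def lc (t : ℕ → ℝ) (j : ℕ) : ℂ := ((2 * t j - 1 : ℝ) : ℂ)

/-- a matrix `Z + τ0 X + τ1 Y + τ2 W`, rest in the radii (unit `1 / UU`) -/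
structure DV (t : ℕ → ℝ) (Er : Mt) (E : DM) : Prop where
  ex : ∃ Z X Y W : Mt, TV0 t Z E.z ∧ TV0 t X E.x ∧ TV0 t Y E.y ∧ TV0 t W E.w ∧
    ∀ K < 9, ‖(UU : ℂ) * (en Er (K / 3) (K % 3) - (en Z (K / 3) (K % 3) +
      lc t 0 * en X (K / 3) (K % 3) + lc t 1 * en Y (K / 3) (K % 3) +
      lc t 2 * en W (K / 3) (K % 3)))‖ ≤ (E.r.at K : ℝ)
  rz : ∀ K < 9, (vat E.z K).r = 0
  rx : ∀ K < 9, (vat E.x K).r = 0
  ry : ∀ K < 9, (vat E.y K).r = 0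
  rw : ∀ K < 9, (vat E.w K).r = 0

/-- the matrix of the numbers -/
def mtC (g : E4 → Cx) (E : V9 TP) : Mt :=
  !![cz (g (e4 E.a)) / UU, cz (g (e4 E.b)) / UU, cz (g (e4 E.c)) / UU;
    cz (g (e4 E.d)) / UU, cz (g (e4 E.e)) / UU, cz (g (e4 E.f)) / UU;
    cz (g (e4 E.g)) / UU, cz (g (e4 E.h)) / UU, cz (g (e4 E.i)) / UU]
def mvC (g : E4 → Cx) (E : V9 TP) : V9 Cx :=
  ⟨m0 (g (e4 E.a)), m0 (g (e4 E.b)), m0 (g (e4 E.c)), m0 (g (e4 E.d)), m0 (g (e4 E.e)),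
    m0 (g (e4 E.f)), m0 (g (e4 E.g)), m0 (g (e4 E.h)), m0 (g (e4 E.i))⟩

theorem mvC_ok (g : E4 → Cx) (E : V9 TP) : TV0 t (mtC g E) (mvC g E) :=
  ⟨m0_ok _, m0_ok _, m0_ok _, m0_ok _, m0_ok _, m0_ok _, m0_ok _, m0_ok _, m0_ok _⟩

theorem okR1_ok {R : R9} (h : okR1 R = true) : ∀ K < 9, R.at K ≤ 2 ^ 100 := by
  have h1 : sR9 R ≤ 2 ^ 100 := by
    have h2 := Nat.le_of_ble_eq_true h
    have e : (1267650600228229401496703205376 : ℕ) = 2 ^ 100 := by norm_num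
    rw [← e]
    exact h2
  have h2 : sR9 R = R.a + (R.b + (R.c + (R.d + (R.e + (R.f + (R.g + (R.h + R.i))))))) := rfl
  intro K hK
  have h3 : R.a ≤ 2 ^ 100 ∧ R.b ≤ 2 ^ 100 ∧ R.c ≤ 2 ^ 100 ∧ R.d ≤ 2 ^ 100 ∧ R.e ≤ 2 ^ 100 ∧
      R.f ≤ 2 ^ 100 ∧ R.g ≤ 2 ^ 100 ∧ R.h ≤ 2 ^ 100 ∧ R.i ≤ 2 ^ 100 := by omega
  obtain ⟨a1, a2, a3, a4, a5, a6, a7, a8, a9⟩ := h3
  interval_cases K
  · exact a1
  · exact a2
  · exact a3
  · exact a4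
  · exact a5
  · exact a6
  · exact a7
  · exact a8
  · exact a9

theorem ent4 {f a b c d : ℂ} {r : ℝ} (h : ‖(UU : ℂ) * f - (a + lc t 0 * b + lc t 1 * c +
    lc t 2 * d)‖ ≤ r) : ‖(UU : ℂ) * (f - (a / UU + lc t 0 * (b / UU) + lc t 1 * (c / UU) +
      lc t 2 * (d / UU)))‖ ≤ r := by
  have hU : (UU : ℂ) ≠ 0 := UUc_ne
  have e : (UU : ℂ) * (f - (a / UU + lc t 0 * (b / UU) + lc t 1 * (c / UU) + lc t 2 * (d / UU))) =
      (UU : ℂ) * f - (a + lc t 0 * b + lc t 1 * c + lc t 2 * d) := by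
    field_simp
  rw [e]
  exact h

theorem dmE_ok (hP : PT 3 t) {Er : Mt} {E : V9 TP} (h : TV 3 lfT t Er E)
    (ho : okR1 (dmE E).r = true) : DV t Er (dmE E) := by
  have hr := okR1_ok ho
  have r0 : ∀ g : E4 → Cx, ∀ K < 9, (vat (mvC g E) K).r = 0 := fun g K hK => by
    interval_cases K <;> rfl
  refine ⟨⟨mtC E4.z E, mtC E4.x E, mtC E4.y E, mtC E4.w E, mvC_ok _ E, mvC_ok _ E, mvC_ok _ E,
    mvC_ok _ E, fun K hK => ?_⟩, r0 E4.z, r0 E4.x, r0 E4.y, r0 E4.w⟩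
  have key : ∀ {g : ℂ} {m : Mo TP}, TOK 3 lfT t g m → (e4 m).r ≤ 2 ^ 100 →
      ‖(UU : ℂ) * (g - (cz (e4 m).z / UU + lc t 0 * (cz (e4 m).x / UU) +
        lc t 1 * (cz (e4 m).y / UU) + lc t 2 * (cz (e4 m).w / UU)))‖ ≤ ((e4 m).r : ℝ) :=
    fun hm hb => ent4 (e4a_ok hP hm hb)
  have h9 := hr K hK
  interval_cases K
  · exact key h.a h9
  · exact key h.b h9
  · exact key h.c h9
  · exact key h.d h9
  · exact key h.e h9
  · exact key h.f h9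
  · exact key h.g h9
  · exact key h.h h9
  · exact key h.i h9

/-! ### the machine without parameters -/

theorem Tl0'_ok : TlL 0 lv0 lz0 (fun (k : Tr (Tr (Tr ℕ))) (_ : Vt 0) =>
    Pool.Agent.Helper17.N9.lv3 k (vt0 3)) Tl0' where
  ad _ _ _ := rfl
  sb _ _ _ := rfl
  sl _ _ _ := Nat.shiftLeft_eq _ _
  zc x y _ := by simp only [Tl0', lv0]
  nn _ _ _ _ _ _ := rfl
  az _ _ h _ := h
  mz _ _ _ := rfl
  al _ _ h _ := h
  ld _ := rfl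
  cn x n o f h _ u := by
    rw [show lv0 (Tl0'.cn x) u = lv0 x u from rfl, h u]
    congr 1
    funext k
    show o k + f u k = 2 ^ 0 * o k + f u k
    ring

theorem Mn0_ok : MnL 0 lc0 lv0 lz0 lm0 (fun _ => vt0 3) Mn0 := ⟨rfl, Nd0_ok, Zq0_ok, Tl0'_ok⟩

theorem avg_0 (t : ℕ → ℝ) (g : Vt 0 → ℂ) : avg (ndw 0 t) g = g () := by
  have e : avg (ndw 0 t) g = ∑ v : Unit, (((1 : ℝ) : ℂ)) * g v := rfl
  rw [e, Fintype.sum_unique]
  push_cast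
  exact one_mul _

theorem PT0 (_ : PT 3 t) : PT 0 t := ⟨fun j hj => absurd hj (Nat.not_lt_zero j),
  fun j hj => absurd hj (Nat.not_lt_zero j), by norm_num⟩

/-- integers of a matrix without parameters -/
theorem dN_ok (hP : PT 3 t) {k : ℕ} (hk : k ≤ 20) {Z : Mt} {V : V9 Cx} (h : TV0 t Z V)
    (ho : okV V = true) (hr : ∀ K < 9, (vat V K).r = 0) :
    ∃ n : ℕ → Fin 2 → ℤ, NLR (mkNV Mn0 k V).v n ∧
      ∀ K < 9, ‖(2 ^ 28 / 2 ^ k : ℂ) * en Z (K / 3) (K % 3) -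
        (⟨((n K 0 : ℤ) : ℝ), ((n K 1 : ℤ) : ℝ)⟩ : ℂ)‖ ≤ 5 := by
  obtain ⟨n, h1, h2⟩ := (mkNV_ok (k := k) Mn0_ok (lf := lf0) (fun _ _ => rfl) (PT0 hP) hk h).ex ho
  refine ⟨n (), h1 (), fun K hK => ?_⟩
  have h3 := h2 K hK
  have h4 : (mkNV Mn0 k V).r.at K = r20 k (vat V K) := by
    interval_cases K <;> rfl
  have h5 : r20 k (vat V K) = 5 := by
    show ((vat V K).r >>> (20 + k)) + 5 = 5
    rw [hr K hK, Nat.zero_shiftRight]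
  rw [avg_0, h4, h5] at h3
  exact h3.trans (by norm_num)

/-- the matrix of the integers -/
def nMt (n : ℕ → Fin 2 → ℤ) : Mt := fun i j =>
  ⟨((n (3 * i.1 + j.1) 0 : ℤ) : ℝ), ((n (3 * i.1 + j.1) 1 : ℤ) : ℝ)⟩

theorem en_nMt (n : ℕ → Fin 2 → ℤ) {K : ℕ} (hK : K < 9) : en (nMt n) (K / 3) (K % 3) =
    (⟨((n K 0 : ℤ) : ℝ), ((n K 1 : ℤ) : ℝ)⟩ : ℂ) := by
  have e1 : ((Fin.ofNat 3 (K / 3) : Fin 3) : ℕ) = K / 3 := Nat.mod_eq_of_lt (by omega)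
  have e2 : ((Fin.ofNat 3 (K % 3) : Fin 3) : ℕ) = K % 3 := Nat.mod_eq_of_lt (by omega)
  have e3 : 3 * (K / 3) + K % 3 = K := by omega
  show (⟨((n (3 * ((Fin.ofNat 3 (K / 3) : Fin 3) : ℕ) + ((Fin.ofNat 3 (K % 3) : Fin 3) : ℕ)) 0 : ℤ) : ℝ),
    ((n (3 * ((Fin.ofNat 3 (K / 3) : Fin 3) : ℕ) + ((Fin.ofNat 3 (K % 3) : Fin 3) : ℕ)) 1 : ℤ) : ℝ)⟩ : ℂ) = _
  rw [e1, e2, e3]

/-- packed digits of two vectors: bounds -/
theorem two_ok {x' y' : ℕ} {Y Y' : VA} (y1 : (x' : ℤ) = pz BB 27 (qd Y))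
    (z1 : (y' : ℤ) = pz BB 27 (qd Y')) (y3 : ∀ K < 9, ∀ e, |Y K e| ≤ 2 ^ 84)
    (z3 : ∀ K < 9, ∀ e, |Y' K e| ≤ 2 ^ 84) : ∀ K < 9,
      ‖ev K Y‖ ≤ (fa (pmo (absd HZ LZ (zc0 x' y') OQ2)) K : ℝ) ∧
      ‖ev K Y'‖ ≤ (fb (pmo (absd HZ LZ (zc0 x' y') OQ2)) K : ℝ) := by
  have a1 : ∀ u : Vt 0, ((lv0 x' u : ℕ) : ℤ) = pz BB 27 (qd ((fun _ : Vt 0 => Y) u)) :=
    fun _ => y1
  have a2 : ∀ u : Vt 0, ((lv0 y' u : ℕ) : ℤ) = pz BB 27 (qd ((fun _ : Vt 0 => Y') u)) :=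
    fun _ => z1
  obtain ⟨c, c1, c2, c3, c4, c5⟩ := ctl_ok (D := 0) (T := Tl0) Tl0_ok (by norm_num) a1 a2
    (fun _ => y3) (fun _ => z3)
  have hz : zc0 x' y' = pk (2 ^ 128) 54 (c ()) := by
    have e : lv0 (Tl0.cn (Tl0.zc x' y')) () = zc0 x' y' := by simp only [Tl0, lv0]
    rw [← e]
    exact c1 ()
  have p := fun K hK => p0_ok (D := 0) (by norm_num) hz (c2 ()) (c3 ()) K hK
  have es : Nat.shiftLeft OQ2 0 = OQ2 := Nat.shiftLeft_zero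
  rw [es] at p
  intro K hK
  constructor
  · have h := p K (by omega)
    have e : (⟨(c () (3 * K) : ℝ) - 2 ^ (100 + 0), (c () (3 * K + 1) : ℝ) - 2 ^ (100 + 0)⟩ : ℂ) =
        ev K Y := by
      have h4 : (⟨(c () (3 * K) : ℝ), (c () (3 * K + 1) : ℝ)⟩ : ℂ) = ev K Y +
        ⟨2 ^ (100 + 0), 2 ^ (100 + 0)⟩ := c4 () K hK
      apply Complex.ext
      · have := congrArg Complex.re h4
        simp only [Complex.add_re] at this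
        show (c () (3 * K) : ℝ) - 2 ^ (100 + 0) = _
        linarith
      · have := congrArg Complex.im h4
        simp only [Complex.add_im] at this
        show (c () (3 * K + 1) : ℝ) - 2 ^ (100 + 0) = _
        linarith
    rw [e] at h
    exact h
  · have h := p (K + 9) (by omega)
    have e : (⟨(c () (3 * (K + 9)) : ℝ) - 2 ^ (100 + 0),
        (c () (3 * (K + 9) + 1) : ℝ) - 2 ^ (100 + 0)⟩ : ℂ) = ev K Y' := by
      have h4 : (⟨(c () (3 * (K + 9)) : ℝ), (c () (3 * (K + 9) + 1) : ℝ)⟩ : ℂ) = ev K Y' +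
        ⟨2 ^ (100 + 0), 2 ^ (100 + 0)⟩ := c5 () K hK
      apply Complex.ext
      · have := congrArg Complex.re h4
        simp only [Complex.add_re] at this
        show (c () (3 * (K + 9)) : ℝ) - 2 ^ (100 + 0) = _
        linarith
      · have := congrArg Complex.im h4
        simp only [Complex.add_im] at this
        show (c () (3 * (K + 9) + 1) : ℝ) - 2 ^ (100 + 0) = _
        linarith
    rw [e] at h
    exact h

/-- the transformed integers -/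
theorem ev_nMt {fr fu : ℕ} {n : ℕ → Fin 2 → ℤ} {Y : VA} (h : ∀ K < 9, ev K Y =
    ∑ k ∈ range 9, ef (k / 3) (K / 3) (AI fr) * ef (k % 3) (K % 3) (AI fu) *
      ⟨((n k 0 : ℤ) : ℝ), ((n k 1 : ℤ) : ℝ)⟩) (K : ℕ) (hK : K < 9) :
    mwu (mI (AI fr)) (mI (AI fu)) (nMt n) K = ev K Y := by
  rw [h K hK, mwu_eq]
  refine sum_congr rfl fun k hk => ?_
  have hk9 := mem_range.1 hk
  rw [en_mI _ (by omega) (by omega), en_mI _ (by omega) (by omega), en_nMt n hk9]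

/-- the transformed integers of `E` and `F` -/
theorem pair_ok (fr fu : ℕ) {x y : NL} {n n' : ℕ → Fin 2 → ℤ} (hx : NLR x n) (hy : NLR y n')
    (K : ℕ) (hK : K < 9) :
      ‖mwu (mI (AI fr)) (mI (AI fu)) (nMt n) K‖ ≤
        (fa (pmo (absd HZ LZ (zc0 (q2 (mkTC (frW fr) (frU fu)) x)
          (q2 (mkTC (frW fr) (frU fu)) y)) OQ2)) K : ℝ) ∧
      ‖mwu (mI (AI fr)) (mI (AI fu)) (nMt n') K‖ ≤
        (fb (pmo (absd HZ LZ (zc0 (q2 (mkTC (frW fr) (frU fu)) x)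
          (q2 (mkTC (frW fr) (frU fu)) y)) OQ2)) K : ℝ) := by
  obtain ⟨Y, y1, y2, y3⟩ := q2_ok (frW_ok fr) (frU_ok fu) (AI_bd fr) (AI_bd fu) hx
  obtain ⟨Y', z1, z2, z3⟩ := q2_ok (frW_ok fr) (frU_ok fu) (AI_bd fr) (AI_bd fu) hy
  rw [ev_nMt y2 K hK, ev_nMt z2 K hK]
  exact two_ok y1 z1 y3 z3 K hK

end Pool.Agent.Helper45.M2
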