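import Pool.Agent.Helper12.TE.C
import Pool.Agent.Helper45.N9S.SL

/-!
MP_c75db0, Plan W: THE TESTS OF THE KINDS `6`, `7` THROUGH KERNEL S, kernel side: conversion of the
matrices of the Taylor machine with a parameter of a family to the sums of products of the fused
machine; disc matrices by their coefficients of degree `0` and `1` (transformed to the frames of a
test) and the remainders of their entries.
-/

set_option autoImplicit false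
noncomputable section
namespace Pool.Agent.Helper45.M2

open Pool.Agent.Helper86.C75 (Z)
open Pool.Agent.Helper86.CX (Cx andB)
open Pool.Agent.Helper86.CT (N3 Mo Alg A0 A4 mk cst addM mulM nx)
open Pool.Agent.Helper17.K9 (V9)
open Pool.Agent.Helper17.N9
open Pool.Agent.Helper62.TVM (addV subV smV mulV)
open Pool.Agent.Helper91.TM (TP AT c0R c0T qtT)
open Pool.Agent.Helper91.TMK.TST (cvV)
open Pool.Agent.Helper91.TMK.SW (TK)
open Pool.Agent.Helper91.FU (FP F9 W9 toF2 lifW TF f9V)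
open Pool.Agent.Helper91.BX (upV)
open Pool.Agent.Helper12.TE (TrE)
open Pool.Agent.Helper45.N9S
open Pool.Agent.Helper21.SW (T3 T4)
open Pool.Agent.Helper21.TC (MT TT)

/-! ### the values at the parameters `0`, `1/2`, `1` of a family -/

def gA (m : Mo (N3 TP)) : FP :=
  N3.rec (motive := fun _ => FP) (fun x => toF2 x m.r) (fun a _ _ => toF2 a m.r) m.v
def gB (m : Mo (N3 TP)) : FP :=
  N3.rec (motive := fun _ => FP) (fun x => toF2 x m.r) (fun _ _ b => toF2 b m.r) m.v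
def gC (m : Mo (N3 TP)) : FP :=
  N3.rec (motive := fun _ => FP) (fun x => toF2 x m.r)
    (fun a c b => toF2 (AT.q4 (AT.add (AT.add a b) (AT.add c c))) (Nat.add m.r (nat_lit 2))) m.v
def hA (x : V9 (N3 TP)) : F9 := ⟨gA x.a, gA x.b, gA x.c, gA x.d, gA x.e, gA x.f, gA x.g, gA x.h, gA x.i⟩
def hB (x : V9 (N3 TP)) : F9 := ⟨gB x.a, gB x.b, gB x.c, gB x.d, gB x.e, gB x.f, gB x.g, gB x.h, gB x.i⟩
def hC (x : V9 (N3 TP)) : F9 := ⟨gC x.a, gC x.b, gC x.c, gC x.d, gC x.e, gC x.f, gC x.g, gC x.h, gC x.i⟩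

/-- `f k`, the number `k` evaluated -/
def fk (f : Nat → Bool) (k : Nat) : Bool :=
  Nat.rec (motive := fun _ => Bool) (f (nat_lit 0)) (fun n _ => f (Nat.succ n)) k

/-- the block of nine functions -/
def nN (M : V9 (N3 TP)) (k : Nat) : NW (Tr (Tr P9)) := nw4 (lifW (hA M)) (lifW (hC M)) (lifW (hB M)) k
def t4k (k1 k2 : Kf) (g : Te) (M X : V9 (N3 TP)) (k : Nat) : Bool :=
  andB (Nat.ble k (nat_lit 20)) (tS Ms4 (nN M k) (nN X k) k1 k2 g)
/-- four parameters -/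
def t4N (k1 k2 : Kf) (g : Te) (M X : V9 (N3 TP)) : Bool :=
  fk (fun k => t4k k1 k2 g M X k) (u8 g.cs (nat_lit 32))
/-- three parameters -/
def t3N (k1 k2 : Kf) (g : Te) (M X : V9 TP) : Bool :=
  fk (fun k => u3S k1 k2 g k (lifW (f9V M)) (lifW (f9V X))) (u8 g.cs (nat_lit 32))
/-- THE TESTS, the former ones as a fallback -/
def TKS (T : TK TP Kf Te) : TK TP Kf Te where
  t3 k1 k2 g M X := cond (t3N k1 k2 g M X) true (T.t3 k1 k2 g M X)
  t4 k1 k2 g M X := cond (t4N k1 k2 g M X) true (T.t4 k1 k2 g M X)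
  km := T.km

/-- the fused tests, the byte number 4 of `cs` evaluated -/
def TrK : TF Kf Te :=
  ⟨fun k1 k2 g M X => fk (fun k => u3S k1 k2 g k M X) (u8 g.cs (nat_lit 32)),
    fun k1 k2 g M0 M1 M2 X0 X1 X2 =>
      fk (fun k => u4S k1 k2 g k M0 M1 M2 X0 X1 X2) (u8 g.cs (nat_lit 32))⟩

/-! ### disc matrices -/

/-- coefficient at the bit `e` -/
def c1T (e : Nat) (x : TP) : Cx := ⟨c0R (Nat.shiftRight x.re e), c0R (Nat.shiftRight x.im e)⟩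
def ngC (z : Cx) : Cx := ⟨zng z.re, zng z.im⟩
def zeC : Cx := ⟨Z.p (nat_lit 0), Z.p (nat_lit 0)⟩
/-- `s_j z` -/
def liT (j : Nat) (z : Cx) : TP := qtT j (ngC z) zeC z
/-- the remainder -/
def reT (x : TP) (a b c d : Cx) : TP :=
  AT.sub (AT.sub (AT.sub (AT.sub x (AT.cs a)) (liT (nat_lit 0) b)) (liT (nat_lit 1) c)) (liT (nat_lit 2) d)
/-- coefficients of degree `0` and `1`, radius -/
structure E4 where
  z : Cx
  x : Cx
  y : Cx
  w : Cx
  r : Nat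
def e4a (m : Mo TP) (a b c d : Cx) : E4 := ⟨a, b, c, d, Nat.add m.r (AT.nb (reT m.v a b c d))⟩
def e4 (m : Mo TP) : E4 :=
  e4a m (c0T m.v) (c1T (nat_lit 6880) m.v) (c1T (nat_lit 7040) m.v) (c1T (nat_lit 8000) m.v)
/-- a matrix: coefficients, radii -/
structure DM where
  z : V9 Cx
  x : V9 Cx
  y : V9 Cx
  w : V9 Cx
  r : R9
def m0 (z : Cx) : Mo Cx := mk A0 z (nat_lit 0)
def dmE (E : V9 TP) : DM :=
  ⟨⟨m0 (e4 E.a).z, m0 (e4 E.b).z, m0 (e4 E.c).z, m0 (e4 E.d).z, m0 (e4 E.e).z, m0 (e4 E.f).z, m0 (e4 E.g).z, m0 (e4 E.h).z, m0 (e4 E.i).z⟩,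
    ⟨m0 (e4 E.a).x, m0 (e4 E.b).x, m0 (e4 E.c).x, m0 (e4 E.d).x, m0 (e4 E.e).x, m0 (e4 E.f).x, m0 (e4 E.g).x, m0 (e4 E.h).x, m0 (e4 E.i).x⟩,
    ⟨m0 (e4 E.a).y, m0 (e4 E.b).y, m0 (e4 E.c).y, m0 (e4 E.d).y, m0 (e4 E.e).y, m0 (e4 E.f).y, m0 (e4 E.g).y, m0 (e4 E.h).y, m0 (e4 E.i).y⟩,
    ⟨m0 (e4 E.a).w, m0 (e4 E.b).w, m0 (e4 E.c).w, m0 (e4 E.d).w, m0 (e4 E.e).w, m0 (e4 E.f).w, m0 (e4 E.g).w, m0 (e4 E.h).w, m0 (e4 E.i).w⟩,
    ⟨(e4 E.a).r, (e4 E.b).r, (e4 E.c).r, (e4 E.d).r, (e4 E.e).r, (e4 E.f).r, (e4 E.g).r, (e4 E.h).r, (e4 E.i).r⟩⟩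

/-- the machine without parameters -/
def Tl0' : Tl Nat Z (Tr (Tr (Tr Nat))) := ⟨fun x y => Nat.add x y, fun x y => Nat.sub x y, fun k x => Nat.shiftLeft x k, fun x => x,
  fun x y => zc0 x y, fun H L a c b => dt0 H L a c b, fun _ _ _ => [], fun f k l x y => f k.a.a.a l.a.a.a x y, fun f x => f x, fun f x => f x, fun f x => f x, fun x => x⟩
def Mn0 : Mn Cx Nat NL Z := ⟨(nat_lit 0), Nd0, Zq0, Tl0'⟩

/-- bounds of the transformed entries of `E` and `F` -/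
def aE (C : TC) (x y : NV NL) : Nat := pmo (absd HZ LZ (zc0 (q2 C x.v) (q2 C y.v)) OQ2)
def zP (p : Nat) : Nat := Nat.add (Nat.land p ML9) (Nat.land (Nat.shiftRight p (nat_lit 3456)) ML9)
def zD1 (C : TC) (x0 x1 x2 x3 y0 y1 y2 y3 : NV NL) : Nat :=
  Nat.add (Nat.add (zP (aE C x0 y0)) (zP (aE C x1 y1))) (Nat.add (zP (aE C x2 y2)) (zP (aE C x3 y3)))
def zD (k : Nat) (E F : DM) (C : TC) : Nat :=
  zD1 C (mkNV Mn0 k E.z) (mkNV Mn0 k E.x) (mkNV Mn0 k E.y) (mkNV Mn0 k E.w)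
    (mkNV Mn0 k F.z) (mkNV Mn0 k F.x) (mkNV Mn0 k F.y) (mkNV Mn0 k F.w)
/-- the radii are `≤ 2 ^ 100` -/
def okR1 (R : R9) : Bool := Nat.ble (sR9 R) (nat_lit 1267650600228229401496703205376)
def okD1 (E : DM) : Bool :=
  andB (okR1 E.r) (andB (andB (Pool.Agent.Helper17.N9.okV E.z) (Pool.Agent.Helper17.N9.okV E.x))
    (andB (Pool.Agent.Helper17.N9.okV E.y) (Pool.Agent.Helper17.N9.okV E.w)))
/-- the remainders, units `2 ^ (k - 28)` -/
def rD (k x y r : Nat) : Nat :=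
  Nat.add r (Nat.add (Nat.shiftRight (Nat.add x y) (Nat.add (nat_lit 20) k)) (nat_lit 42))
def r9D (k : Nat) (E F R : R9) : R9 :=
  ⟨rD k E.a F.a R.a, rD k E.b F.b R.b, rD k E.c F.c R.c, rD k E.d F.d R.d, rD k E.e F.e R.e, rD k E.f F.f R.f, rD k E.g F.g R.g, rD k E.h F.h R.h, rD k E.i F.i R.i⟩

/-- the fields are `< 2 ^ 54` -/
def okZ (Y : Nat) : Bool := Nat.beq (Nat.land (Nat.shiftRight Y (nat_lit 54)) FB9) (nat_lit 0)

section

variable {π ν ζ : Type}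

/-- `Y`: discs (nine fields) -/
def s1Z (X : Ms π ν ζ) (M V : NW π) (t : Te) (BW BU : Bs) (mW mU : M9) (C : TC)
    (kA kB : Tr (Tr (Tr Nat))) (Y : Nat) : Bool :=
  andB (andB (okE mU mW t.cs) (andB (r52 Lc1 kA) (r52 Lc3 kB)))
    (andB (andB (okR9 M.r) (andB (okR9 V.r) (okZ Y)))
      (sy X.T X.A (u8 t.cs (nat_lit 40)) X.d (mkScF t.pq t.cs (fmJ Lc1 BU) (fmJ Lc3 BW)) kA kB
        (X.q (qWC C) M.v) (X.q (qWC C) V.v) (Nat.shiftLeft (rP mW mU M.r) X.d)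
        (Nat.shiftLeft (Nat.add (rP mW mU V.r) Y) X.d)))
def s0Z (X : Ms π ν ζ) (M V : NW π) (k1 k2 : Kf) (t : Te) (BW BU : Bs) (mW mU : M9)
    (y : TC → Nat) (C : TC) : Bool :=
  s1Z X M V t BW BU mW mU C (kFB Lc1 BU k1) (kFB Lc3 BW k2) (y C)
def sAZ (X : Ms π ν ζ) (M V : NW π) (k1 k2 : Kf) (y : TC → Nat) (t : Te) (fu : Nat) (W U : Fr) :
    Bool :=
  s0Z X M V k1 k2 t (bsW Lc3 W) (bsU Lc1 U) (mkMa t.fr) (mkMa fu) y (mkTC W U)
/-- **THE TEST** of two blocks; `y`: the discs -/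
def tSZ (X : Ms π ν ζ) (M V : NW π) (k1 k2 : Kf) (y : TC → Nat) (t : Te) : Bool :=
  andB (andB M.ok V.ok) (andB (okTS t (Nat.shiftRight t.fr (nat_lit 360)))
    (sAZ X M V k1 k2 y t (Nat.shiftRight t.fr (nat_lit 360)) (frW t.fr)
      (frU (Nat.shiftRight t.fr (nat_lit 360)))))

end

/-- the radii with the remainders -/
def nwD (k : Nat) (E F : R9) (V : NW (Tr (Tr P9))) : NW (Tr (Tr P9)) := ⟨V.v, r9D k E F V.r, V.ok⟩
def t4Dk (k1 k2 : Kf) (g : Te) (M X : V9 (N3 TP)) (E F : DM) (k : Nat) : Bool :=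
  andB (Nat.ble k (nat_lit 20)) (tSZ Ms4 (nN M k) (nwD k E.r F.r (nN X k)) k1 k2 (fun C => zD k E F C) g)
/-- four parameters, discs -/
def t4D (k1 k2 : Kf) (g : Te) (M X : V9 (N3 TP)) (E F : DM) : Bool :=
  andB (andB (okD1 E) (okD1 F)) (fk (fun k => t4Dk k1 k2 g M X E F k) (u8 g.cs (nat_lit 32)))

/-- kernel side of the tests with discs: `δ` data of a disc matrix -/
structure TD (α κ γ δ : Type) where
  ok : V9 α → Bool
  cv : V9 α → δ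
  t : κ → κ → γ → V9 (N3 α) → V9 (N3 α) → δ → δ → Bool
/-- a disc matrix: coefficients, and the trees for the fallback -/
structure D2 where
  a : DM
  b : V9 T4
/-- the former test -/
def t4O (k1 k2 : Kf) (g : Te) (M X : V9 (N3 TP)) (E F : V9 T4) : Bool :=
  andB (Pool.Agent.Helper91.TMK.TST.okV MT.V4 M) (andB (Pool.Agent.Helper91.TMK.TST.okV MT.V4 X)
    (TrE k1 k2 g (cvV MT.V4 A4 M) (cvV MT.V4 A4 X) E F))
/-- THE TESTS with disc matrices -/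
def TDS : TD TP Kf Te D2 where
  ok E := Pool.Agent.Helper91.TMK.TST.okV MT.V4 (upV E)
  cv E := ⟨dmE E, cvV MT.V4 A4 (upV E)⟩
  t k1 k2 g M X E F := cond (t4D k1 k2 g M X E.a F.a) true (t4O k1 k2 g M X E.b F.b)

end Pool.Agent.Helper45.M2
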