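import Pool.Agent.Helper45.M2.K

/-!
MP_c75db0, Plan W: tests of the kinds `6`, `7` through kernel S: THE ROWS with discs.
-/

set_option autoImplicit false
set_option exponentiation.threshold 60000
noncomputable section
namespace Pool.Agent.Helper45.M2

open Pool.Agent.Helper86.CX (andB)
open Pool.Agent.Helper90.K9 (pk pz)
open Pool.Agent.Helper90.C9 (RdC)
open Pool.Agent.Helper17.N9
open Pool.Agent.Helper45.N9S
open Pool.Agent.Helper45.N9S.RR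
open Pool.Agent.Helper90.K9 (pk_add pk_smul pk_congr)
open Finset

theorem tK_lt' {e b c r q : ℕ → ℕ} (he : ∀ i < 9, e i ≤ 160000 * 2 ^ 272)
    (hb : ∀ i < 9, b i ≤ 2 ^ 132) (hc : ∀ i < 9, c i ≤ 2 ^ 132) (hr : ∀ i < 9, r i ≤ 2 ^ 110)
    (hq : ∀ i < 9, q i ≤ 2 ^ 112) {K : ℕ} (hK : K < 9) : tK e b c r q K < 2 ^ 300 := by
  have sb := s9_le hb
  have sc := s9_le hc
  have sr := s9_le hr
  have sq := s9_le hq
  have m1 := Nat.mul_le_mul (hr K hK) (Nat.add_le_add sc sq)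
  have m2 := Nat.mul_le_mul sq (hb K hK)
  have m3 := Nat.mul_le_mul (hq K hK) (Nat.add_le_add sb sr)
  have m4 := Nat.mul_le_mul sr (hc K hK)
  have m5 := he K hK
  unfold tK
  generalize r K * (s9 c + s9 q) = y1 at *
  generalize s9 q * b K = y2 at *
  generalize q K * (s9 b + s9 r) = y3 at *
  generalize s9 r * c K = y4 at *
  omega

theorem rho_eq' {s : ℕ} (hs : s ≤ 80) (hs' : 40 ≤ s) {e b c r q : ℕ → ℕ}
    (he : ∀ i < 9, e i ≤ 160000 * 2 ^ 272)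
    (hb : ∀ i < 9, b i ≤ 2 ^ 132) (hc : ∀ i < 9, c i ≤ 2 ^ 132) (hr : ∀ i < 9, r i ≤ 2 ^ 110)
    (hq : ∀ i < 9, q i ≤ 2 ^ 112) :
    rho s (pk (2 ^ 384) 9 b) (pk (2 ^ 384) 9 c) (pk (2 ^ 384) 9 e) (pk (2 ^ 384) 9 r)
      (pk (2 ^ 384) 9 q) = pk (2 ^ 384) 9 (fun K => tK e b c r q K / 2 ^ (s + 20) + 1243) := by
  have le1 : (2 : ℕ) ^ 132 ≤ 2 ^ 380 := Nat.pow_le_pow_right (by norm_num) (by norm_num)
  have le2 : (2 : ℕ) ^ 110 ≤ 2 ^ 380 := Nat.pow_le_pow_right (by norm_num) (by norm_num)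
  have le3 : (2 : ℕ) ^ 112 ≤ 2 ^ 380 := Nat.pow_le_pow_right (by norm_num) (by norm_num)
  have h : ∀ s B C E R Q : ℕ, rho s B C E R Q =
      Nat.land (Nat.shiftRight (E + ((R * (S9 C + S9 Q) + S9 Q * B) +
        (Q * (S9 B + S9 R) + S9 R * C)) <<< 20) (s + 20)) F284 + O9 * 1243 :=
    fun _ _ _ _ _ _ => rfl
  have lt : ∀ i < 9, tK e b c r q i < 2 ^ 300 := fun i hi => tK_lt' he hb hc hr hq hi
  have hm : ∀ (f : ℕ → ℕ) (k : ℕ), pk (2 ^ 384) 9 f * k = pk (2 ^ 384) 9 (fun K => f K * k) :=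
    fun f k => by
      rw [Nat.mul_comm, pk_smul]
      exact pk_congr _ _ _ _ fun K _ => Nat.mul_comm _ _
  rw [h, S9_pk' b (fun i hi => (hb i hi).trans le1), S9_pk' c (fun i hi => (hc i hi).trans le1),
    S9_pk' r (fun i hi => (hr i hi).trans le2), S9_pk' q (fun i hi => (hq i hi).trans le3),
    Nat.shiftLeft_eq, hm r, hm q, pk_smul, pk_smul, pk_add, pk_add, pk_add, hm, pk_add, O9_eq, hm]
  have e1' : pk (2 ^ 384) 9 (fun K => e K + (r K * (∑ i ∈ range 9, c i + ∑ i ∈ range 9, q i) +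
      (∑ i ∈ range 9, q i) * b K + (q K * (∑ i ∈ range 9, b i + ∑ i ∈ range 9, r i) +
      (∑ i ∈ range 9, r i) * c K)) * 2 ^ 20) = pk (2 ^ 384) 9 (tK e b c r q) := rfl
  rw [e1', shr_F284 (by omega) (fun i hi => (lt i hi).trans
    (Nat.pow_lt_pow_right (by norm_num) (by norm_num))) (fun i hi => by
      rw [Nat.div_lt_iff_lt_mul (by positivity), ← pow_add]
      exact lt_of_lt_of_le (lt i hi) (Nat.pow_le_pow_right (by norm_num) (by omega))), pk_add]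

/-- rows with larger radii -/
def wZ (D : ℕ) (A : W9) (y : ℕ → ℕ) : W9 :=
  ⟨⟨A.a.B, A.a.r + y 0 * 2 ^ D, A.a.l⟩, ⟨A.b.B, A.b.r + y 1 * 2 ^ D, A.b.l⟩,
    ⟨A.c.B, A.c.r + y 2 * 2 ^ D, A.c.l⟩, ⟨A.d.B, A.d.r + y 3 * 2 ^ D, A.d.l⟩,
    ⟨A.e.B, A.e.r + y 4 * 2 ^ D, A.e.l⟩, ⟨A.f.B, A.f.r + y 5 * 2 ^ D, A.f.l⟩,
    ⟨A.g.B, A.g.r + y 6 * 2 ^ D, A.g.l⟩, ⟨A.h.B, A.h.r + y 7 * 2 ^ D, A.h.l⟩,
    ⟨A.i.B, A.i.r + y 8 * 2 ^ D, A.i.l⟩⟩

theorem wZ_at (D : ℕ) (A : W9) (y : ℕ → ℕ) (K : ℕ) (hK : K < 9) :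
    (wZ D A y).at K = ⟨(A.at K).B, (A.at K).r + y K * 2 ^ D, (A.at K).l⟩ := by
  interval_cases K <;> rfl

/-- THE ROWS; `p0`, `l`: any numbers; `Y`: discs -/
theorem rows_okZ {D : ℕ} (hD : D ≤ 4) {p0 : ℕ} {l : List ℕ} (hl : l.length = D) {mW mU : M9}
    {RM RX : R9} (hW : ∀ K < 9, mW.at K ≤ 2 ^ 21) (hU : ∀ K < 9, mU.at K ≤ 2 ^ 21)
    (oM : okR9 RM = true) (oX : okR9 RX = true) {Y : ℕ} {y : ℕ → ℕ} (hY : Y = pk (2 ^ 384) 9 y)
    (hy : ∀ K < 9, y K < 2 ^ 54) {P : RA} (hP : P = rSa p0 l) {Rp : ℕ}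
    (hR : Rp = rho (72 + 2 * D) P.B P.C P.E (Nat.shiftLeft (rP mW mU RM) D)
      (Nat.shiftLeft (Nat.add (rP mW mU RX) Y) D)) (h : okS D P.B P.C Rp = true) :
    ∃ R : ℕ → ℕ, spR Rp = RdC R ∧ (∀ K < 9, R K ≤ 2 ^ 36) ∧
      (∀ K < 9, ((mkWM D p0 l (rW mW (rU (toM RM) mU))).at K).B ≤ 2 ^ 54 * 2 ^ D) ∧
      (∀ K < 9, ((mkWX D p0 l (rW mW (rU (toM RX) mU))).at K).B ≤ 2 ^ 54 * 2 ^ D) ∧
      ∀ K < 9, ∑ L ∈ range 9, (rrR ((mkWM D p0 l (rW mW (rU (toM RM) mU))).at K)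
          ((wZ D (mkWX D p0 l (rW mW (rU (toM RX) mU))) y).at L) +
        rrR ((wZ D (mkWX D p0 l (rW mW (rU (toM RX) mU))) y).at K)
          ((mkWM D p0 l (rW mW (rU (toM RM) mU))).at L)) ≤
        2 ^ (72 + 2 * D) * ((R K : ℝ) - 1241) := by
  set xM : M9 := rW mW (rU (toM RM) mU) with hxM
  set xX : M9 := rW mW (rU (toM RX) mU) with hxX
  set b : ℕ → ℕ := fun K => fa p0 K + sMl l K with hb
  set c : ℕ → ℕ := fun K => fb p0 K + sXl l K with hc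
  set e : ℕ → ℕ := fun K => eE 64 l K with he
  set r : ℕ → ℕ := fun K => xM.at K * 2 ^ D with hr
  set q : ℕ → ℕ := fun K => xX.at K * 2 ^ D + y K * 2 ^ D with hq
  have hl4 : l.length ≤ 4 := by omega
  -- bounds
  have b1 : ∀ i < 9, b i ≤ 2 ^ 132 := fun i _ => by
    have h1 := fa_lt p0 i
    have h2 := sMl_le i l
    have h3 : b i = fa p0 i + sMl l i := rfl
    rw [h3]
    omega
  have b2 : ∀ i < 9, c i ≤ 2 ^ 132 := fun i _ => by
    have h1 := fb_lt p0 i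
    have h2 := sXl_le i l
    have h3 : c i = fb p0 i + sXl l i := rfl
    rw [h3]
    omega
  have b3 : ∀ i < 9, e i ≤ 160000 * 2 ^ 272 := fun i _ => by
    have h1 := eE_le i l 64 (by
      have : 5 ^ l.length ≤ 5 ^ 4 := Nat.pow_le_pow_right (by norm_num) hl4
      omega)
    refine h1.trans ?_
    have := Nat.mul_le_mul_right (40000 * 2 ^ 272) hl4
    refine this.trans (le_of_eq ?_)
    rw [← Nat.mul_assoc]
  have hD16 : (2 : ℕ) ^ D ≤ 2 ^ 4 := Nat.pow_le_pow_right (by norm_num) hD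
  have b4 : ∀ i < 9, r i ≤ 2 ^ 110 := fun i _ => by
    have := Nat.mul_le_mul (rW_le hW hU oM i) hD16
    rw [← pow_add] at this
    exact this
  have b5 : ∀ i < 9, q i ≤ 2 ^ 112 := fun i hi => by
    have h1 := Nat.mul_le_mul (rW_le hW hU oX i) hD16
    have h2 := Nat.mul_le_mul (hy i hi).le hD16
    rw [← pow_add] at h1 h2
    have h3 : q i = xX.at i * 2 ^ D + y i * 2 ^ D := rfl
    rw [h3]
    have h4 : xX.at i * 2 ^ D ≤ 2 ^ (106 + 4) := h1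
    generalize xX.at i * 2 ^ D = z1 at *
    generalize y i * 2 ^ D = z2 at *
    omega
  -- the packed numbers
  have sh : ∀ f : ℕ → ℕ, Nat.shiftLeft (pk (2 ^ 384) 9 f) D =
      pk (2 ^ 384) 9 (fun K => f K * 2 ^ D) := fun f => by
    have h1 : Nat.shiftLeft (pk (2 ^ 384) 9 f) D = (pk (2 ^ 384) 9 f) <<< D := rfl
    rw [h1, Nat.shiftLeft_eq, Nat.mul_comm, Pool.Agent.Helper90.K9.pk_smul]
    exact Pool.Agent.Helper90.K9.pk_congr _ _ _ _ fun K _ => Nat.mul_comm _ _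
  have hP1 : P = ⟨pk (2 ^ 384) 9 b, pk (2 ^ 384) 9 c, pk (2 ^ 384) 9 e⟩ := hP.trans (rSa_eq p0 l)
  have hq1 : Nat.shiftLeft (Nat.add (rP mW mU RX) Y) D = pk (2 ^ 384) 9 q := by
    have h1 : Nat.add (rP mW mU RX) Y = pk (2 ^ 384) 9 (fun K => xX.at K + y K) := by
      rw [rP_eq, hY]
      exact pk_add _ _ _ _
    rw [h1, sh]
    exact pk_congr _ _ _ _ fun K _ => Nat.add_mul _ _ _
  have hR1 : Rp = pk (2 ^ 384) 9 (fun K => tK e b c r q K / 2 ^ (72 + 2 * D + 20) + 1243) := by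
    rw [hR, hP1, hq1, rP_eq, sh]
    exact rho_eq' (by omega) (by omega) b3 b1 b2 b4 b5
  set R : ℕ → ℕ := fun K => tK e b c r q K / 2 ^ (72 + 2 * D + 20) + 1243 with hRd
  have b6 : ∀ i < 9, R i < 2 ^ 284 := fun i hi => by
    have h1 := tK_lt' b3 b1 b2 b4 b5 hi
    have h2 : tK e b c r q i / 2 ^ (72 + 2 * D + 20) < 2 ^ 208 := by
      rw [Nat.div_lt_iff_lt_mul (by positivity), ← pow_add]
      exact lt_of_lt_of_le h1 (Nat.pow_le_pow_right (by norm_num) (by omega))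
    have h3 : R i = tK e b c r q i / 2 ^ (72 + 2 * D + 20) + 1243 := rfl
    rw [h3]
    generalize tK e b c r q i / 2 ^ (72 + 2 * D + 20) = z at *
    omega
  rw [hR1, hP1] at h
  obtain ⟨k1, k2, k3⟩ := okS_ok hD b1 b2 b6 h
  have mMB : ∀ K < 9, ((mkWM D p0 l xM).at K).B = b K := fun K hK => by
    rw [mkWM_at _ _ _ _ _ hK]
    rfl
  have mXB : ∀ K < 9, ((mkWX D p0 l xX).at K).B = c K := fun K hK => by
    rw [mkWX_at _ _ _ _ _ hK]
    rfl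
  refine ⟨R, ?_, fun K hK => (k3 K hK).le, fun K hK => ?_, fun K hK => ?_, fun K hK => ?_⟩
  · rw [hR1]
    exact spR_eq fun i hi => (k3 i hi).trans (Nat.pow_lt_pow_right (by norm_num) (by norm_num))
  · rw [mMB K hK]
    exact k1 K hK
  · rw [mXB K hK]
    exact k2 K hK
  · have s1 := sum_rr (e := e) (b := b) (c := c) (r := r) (q := q) (l := l) (fun _ => rfl) hl4
      (M := fun K => (mkWM D p0 l xM).at K) (X := fun K => (wZ D (mkWX D p0 l xX) y).at K) hK mMB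
      (fun K hK => by
        show ((mkWM D p0 l xM).at K).r = _
        rw [mkWM_at _ _ _ _ _ hK]
        rfl)
      (fun K hK => by
        show rlD ((mkWM D p0 l xM).at K).l = _
        rw [mkWM_at _ _ _ _ _ hK]
        rfl) (fun K hK => by
        show ((wZ D (mkWX D p0 l xX) y).at K).B = _
        rw [wZ_at _ _ _ _ hK]
        exact mXB K hK)
      (fun K hK => by
        show ((wZ D (mkWX D p0 l xX) y).at K).r = _
        rw [wZ_at _ _ _ _ hK, mkWX_at _ _ _ _ _ hK]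
        rfl)
      (fun K hK => by
        show rlD ((wZ D (mkWX D p0 l xX) y).at K).l = _
        rw [wZ_at _ _ _ _ hK, mkWX_at _ _ _ _ _ hK]
        rfl)
    have s2 := Nat.lt_mul_div_succ (tK e b c r q K) (Nat.two_pow_pos (72 + 2 * D + 20))
    have s3 : R K = tK e b c r q K / 2 ^ (72 + 2 * D + 20) + 1243 := rfl
    have s4 : tK e b c r q K + 1242 * 2 ^ (72 + 2 * D + 20) ≤ 2 ^ (72 + 2 * D + 20) * R K := by
      rw [s3]
      generalize tK e b c r q K / 2 ^ (72 + 2 * D + 20) = z at *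
      have : 2 ^ (72 + 2 * D + 20) * (z + 1243) =
        2 ^ (72 + 2 * D + 20) * (z + 1) + 1242 * 2 ^ (72 + 2 * D + 20) := by ring
      omega
    have s5 : (tK e b c r q K : ℝ) + 1242 * 2 ^ (72 + 2 * D + 20) ≤
        2 ^ (72 + 2 * D + 20) * (R K : ℝ) := by exact_mod_cast s4
    rw [pow_add (2 : ℝ) (72 + 2 * D) 20] at s5
    exact fin_le (by positivity) s1 s5

end Pool.Agent.Helper45.M2
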