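import Pool.Agent.Helper45.M2.R

/-!
MP_c75db0, Plan W: tests of the kinds `6`, `7` through kernel S: THE TEST with discs.
-/

set_option autoImplicit false
set_option exponentiation.threshold 60000
noncomputable section
namespace Pool.Agent.Helper45.M2

open Pool.Agent.Helper86.C75 (Z)
open Pool.Agent.Helper86.CX (Cx andB)
open Pool.Agent.Helper90.C75 (Vt avg wtT)
open Pool.Agent.Helper90.KMT (PT)
open Pool.Agent.Helper90.K9 (G pk pz)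
open Pool.Agent.Helper90.C9 (RdC tfY)
open Pool.Agent.Helper17.N9
open Pool.Agent.Helper6.MONO.W2 (Mt hr hv J1 NT)
open Pool.Agent.Helper91.FU (E9 trE nvE nv4a)
open Pool.Agent.Helper45.N9S
open Finset Matrix

theorem okZ_ok {y : ℕ → ℕ} (hy : ∀ K < 9, y K < 2 ^ 300) (h : okZ (pk (2 ^ 384) 9 y) = true) :
    ∀ K < 9, y K < 2 ^ 54 := by
  have h1 : (pk (2 ^ 384) 9 y) >>> 54 &&& FB9 = 0 := Nat.eq_of_beq_eq_true h
  exact RR.shr_FB9 (by norm_num) hy h1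

theorem mwu_add (W U A B : Mt) (K : ℕ) : mwu W U (A + B) K = mwu W U A K + mwu W U B K := by
  unfold mwu en
  rw [Matrix.mul_add, Matrix.add_mul, Matrix.add_apply]

theorem RwL_Z {D : ℕ} {t : ℕ → ℝ} {g : Vt D → ℂ} {m m' : ℂ} {x : Rw} {y : ℕ}
    (h : RwL D t g m x) (h' : ‖m'‖ ≤ y) : RwL D t g (m + m') ⟨x.B, x.r + y * 2 ^ D, x.l⟩ where
  dl := h.dl
  len := h.len
  bd := h.bd
  er := by
    have a := h.er
    have e0 : m + m' - avg (ndw D t) g = (m - avg (ndw D t) g) + m' := by ring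
    have n3 : ‖m + m' - avg (ndw D t) g‖ ≤ ‖m - avg (ndw D t) g‖ + y := by
      rw [e0]
      exact (norm_add_le _ _).trans (by linarith)
    have hp : (0 : ℝ) ≤ 2 ^ D := by positivity
    have n4 := mul_le_mul_of_nonneg_left n3 hp
    rw [mul_add] at n4
    show _ ≤ ((x.r + y * 2 ^ D : ℕ) : ℝ)
    push_cast
    linarith

/-- the test on the trees -/
theorem tSZ_ok {π ν ζ : Type} {D : ℕ} {lv : ν → Vt D → ℕ} {lz : ζ → Vt D → Z} {rr : Vt D → Vt 3}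
    {X : Ms π ν ζ} (H : MsL D lv lz rr X) (hD : D ≤ 4) {t : ℕ → ℝ} (hP : PT D t)
    (hrr : ∀ G : Vt 3 → ℂ, avg (ndw D t) (fun u => G (rr u)) = avg (ndw 3 t) G) {k : ℕ}
    {M A : Mt} {VM VA' : NW π} (hM : NWL D lv X.q t k M VM) (hA : NWL D lv X.q t k A VA')
    {k1 k2 : Kf} {yf : TC → ℕ} {te : Te} {yy : ℕ → ℕ}
    (hY : yf (mkTC (frW te.fr) (frU (Nat.shiftRight te.fr 360))) = pk (2 ^ 384) 9 yy)
    (hy : ∀ K < 9, yy K < 2 ^ 300) {G' : Mt}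
    (hG : ∀ K < 9, ‖mwu (mI (AI te.fr)) (mI (AI (Nat.shiftRight te.fr 360)))
      ((2 ^ 28 / 2 ^ k : ℂ) • G') K‖ ≤ (yy K : ℝ))
    (h : tSZ X VM VA' k1 k2 yf te = true) :
    NT (KfM k1 t) (KfM k2 t) (A + G') M := by
  have h' : andB (andB VM.ok VA'.ok) (andB (okTS te (Nat.shiftRight te.fr 360))
    (sAZ X VM VA' k1 k2 yf te (Nat.shiftRight te.fr 360) (frW te.fr)
      (frU (Nat.shiftRight te.fr 360)))) = true := h
  obtain ⟨h1, h2⟩ := andB2 h'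
  obtain ⟨okM, okA⟩ := andB2 h1
  obtain ⟨h3, h4⟩ := andB2 h2
  generalize hfu : Nat.shiftRight te.fr 360 = fu at h3 h4 hY hG
  have h3' : andB (psd3 te.pq) (andB (psd3 (Nat.shiftRight te.pq 144))
    (andB (nzd te.fr) (nzd fu))) = true := h3
  obtain ⟨w1, h5⟩ := andB2 h3'
  obtain ⟨w2, h6⟩ := andB2 h5
  obtain ⟨w3, w4⟩ := andB2 h6
  clear h h' h1 h2 h3 h3' h5 h6
  have h4' : s1Z X VM VA' te (bsW Lc3 (frW te.fr)) (bsU Lc1 (frU fu)) (mkMa te.fr) (mkMa fu)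
    (mkTC (frW te.fr) (frU fu)) (kFB Lc1 (bsU Lc1 (frU fu)) k1) (kFB Lc3 (bsW Lc3 (frW te.fr)) k2)
    (yf (mkTC (frW te.fr) (frU fu))) = true := h4
  rw [kFB_eq, kFB_eq, hY] at h4'
  clear h4
  set kA := kNd (kE Lc1 (bsU Lc1 (frU fu))) k1 with hkA
  set kB := kNd (kE Lc3 (bsW Lc3 (frW te.fr))) k2 with hkB
  set C := mkTC (frW te.fr) (frU fu) with hC
  have h7 : andB (andB (okE (mkMa fu) (mkMa te.fr) te.cs) (andB (r52 Lc1 kA) (r52 Lc3 kB)))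
    (andB (andB (okR9 VM.r) (andB (okR9 VA'.r) (okZ (pk (2 ^ 384) 9 yy))))
    (sy X.T X.A (u8 te.cs 40) X.d (mkScF te.pq te.cs (fmJ Lc1 (bsU Lc1 (frU fu)))
      (fmJ Lc3 (bsW Lc3 (frW te.fr)))) kA kB (X.q (qWC C) VM.v) (X.q (qWC C) VA'.v)
      (Nat.shiftLeft (rP (mkMa te.fr) (mkMa fu) VM.r) X.d)
      (Nat.shiftLeft (Nat.add (rP (mkMa te.fr) (mkMa fu) VA'.r) (pk (2 ^ 384) 9 yy)) X.d))) =
      true := h4'
  clear h4'
  rw [H.d, mkScF_eq] at h7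
  obtain ⟨h8, h9⟩ := andB2 h7
  obtain ⟨h16, h9⟩ := andB2 h9
  obtain ⟨oRM, h16⟩ := andB2 h16
  obtain ⟨oRX, oZ⟩ := andB2 h16
  have hy54 := okZ_ok hy oZ
  obtain ⟨oE, h10⟩ := andB2 h8
  obtain ⟨rA, rB⟩ := andB2 h10
  clear h7 h8 h10 h16
  have oE' : andB (Nat.ble (u8 te.cs 0) 54) (andB (Nat.ble (u8 te.cs 8) 54)
    (andB (okX (sm9 (mkMa te.fr)) (17 + u8 te.cs 16)) (okX (sm9 (mkMa fu)) (17 + u8 te.cs 24)))) =
    true := oE
  obtain ⟨e0, h11⟩ := andB2 oE'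
  obtain ⟨e8, h12⟩ := andB2 h11
  obtain ⟨e16, e24⟩ := andB2 h12
  clear oE oE' h11 h12
  -- the blocks at the nodes
  obtain ⟨nM, lM, bM⟩ := hM.ex okM
  obtain ⟨nX, lX, bX⟩ := hA.ex okA
  choose QM x1 qM2 qM3 using fun u => lM te.fr fu u
  choose QX y1 qX2 qX3 using fun u => lX te.fr fu u
  rw [← hC] at x1 y1
  generalize X.q (qWC C) VM.v = x at h9 x1
  generalize X.q (qWC C) VA'.v = y at h9 y1
  -- the controls
  obtain ⟨c, c1, c2, c3, cM, cX⟩ := ctl_ok H.T hD x1 y1 qM3 qX3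
  set z := X.T.cn (X.T.zc x y) with hz
  set p0 := pmo (absd HZ LZ (X.T.ld z) (Nat.shiftLeft OQ2 D)) with hp0
  set l := pmL (X.T.dl HZ LZ z) with hl
  set rM := rW (mkMa te.fr) (rU (toM VM.r) (mkMa fu)) with hrM
  set rX := rW (mkMa te.fr) (rU (toM VA'.r) (mkMa fu)) with hrX
  set S := mkSc te.pq te.cs (fmJ Lc1 (bsU Lc1 (frU fu))) (fmJ Lc3 (bsW Lc3 (frW te.fr))) with hS
  set Mr := mkWM D p0 l rM with hMr
  set Xr := mkWX D p0 l rX with hXr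
  have h13 : andB (okS D (rSa p0 l).B (rSa p0 l).C (rho (72 + 2 * D) (rSa p0 l).B (rSa p0 l).C
      (rSa p0 l).E (Nat.shiftLeft (rP (mkMa te.fr) (mkMa fu) VM.r) D)
      (Nat.shiftLeft (Nat.add (rP (mkMa te.fr) (mkMa fu) VA'.r) (pk (2 ^ 384) 9 yy)) D)))
    (s5 X.T X.A (u8 te.cs 40) (Nat.shiftRight OFN D) (tfX (spR (rho (72 + 2 * D) (rSa p0 l).B
      (rSa p0 l).C (rSa p0 l).E (Nat.shiftLeft (rP (mkMa te.fr) (mkMa fu) VM.r) D)
      (Nat.shiftLeft (Nat.add (rP (mkMa te.fr) (mkMa fu) VA'.r) (pk (2 ^ 384) 9 yy)) D))))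
      (X.T.nn (ndN (4 - D) S) kA kB x y)) = true := h9
  clear h9
  obtain ⟨oS, T5⟩ := andB2 h13
  clear h13
  obtain ⟨R, eR, oR, oM, oX, hRs⟩ := rows_okZ hD (p0 := p0) (l := l)
    (by rw [hl, len_pmL]; exact H.L.len z) (mkMa_bd te.fr) (mkMa_bd fu) oRM oRX rfl hy54 rfl rfl oS
  rw [eR] at T5
  -- the rows
  have rowM : ∀ K < 9, RwL D t (fun u => ev K (QM u))
      (mwu (mI (AI te.fr)) (mI (AI fu)) ((2 ^ 28 / 2 ^ k : ℂ) • M) K) (Mr.at K) := fun K hK => by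
    rw [hMr, mkWM_at _ _ _ _ K hK]
    refine row_ok H.L hD c1 c2 c3 (H.T.ld z) (by omega) (fun u => cM u K hK) ?_
    have a := vec_err (mkMa_le te.fr) (mkMa_le fu) (M := (2 ^ 28 / 2 ^ k : ℂ) • M) (n := nM)
      (r := VM.r.at) bM (Q := QM) hK (fun u => qM2 u K hK)
    rw [hrM, rWU_at _ _ _ K hK]
    have e : ∑ k ∈ range 9, (mkMa te.fr).at (3 * (k / 3) + K / 3) * (mkMa fu).at (3 * (k % 3) + K % 3) *
        (toM VM.r).at k = ∑ k ∈ range 9, (mkMa te.fr).at (3 * (k / 3) + K / 3) *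
        (mkMa fu).at (3 * (k % 3) + K % 3) * VM.r.at k :=
      sum_congr rfl fun i hi => by rw [toM_at _ i (mem_range.1 hi)]
    rw [e]
    exact a
  have rowX : ∀ K < 9, RwL D t (fun u => ev K (QX u))
      (mwu (mI (AI te.fr)) (mI (AI fu)) ((2 ^ 28 / 2 ^ k : ℂ) • A) K) (Xr.at K) := fun K hK => by
    rw [hXr, mkWX_at _ _ _ _ K hK]
    refine row_ok H.L hD c1 c2 c3 (H.T.ld z) (by omega) (fun u => cX u K hK) ?_
    have a := vec_err (mkMa_le te.fr) (mkMa_le fu) (M := (2 ^ 28 / 2 ^ k : ℂ) • A) (n := nX)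
      (r := VA'.r.at) bX (Q := QX) hK (fun u => qX2 u K hK)
    rw [hrX, rWU_at _ _ _ K hK]
    have e : ∑ k ∈ range 9, (mkMa te.fr).at (3 * (k / 3) + K / 3) * (mkMa fu).at (3 * (k % 3) + K % 3) *
        (toM VA'.r).at k = ∑ k ∈ range 9, (mkMa te.fr).at (3 * (k / 3) + K / 3) *
        (mkMa fu).at (3 * (k % 3) + K % 3) * VA'.r.at k :=
      sum_congr rfl fun i hi => by rw [toM_at _ i (mem_range.1 hi)]
    rw [e]
    exact a
  have rowZ : ∀ K < 9, RwL D t (fun u => ev K (QX u))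
      (mwu (mI (AI te.fr)) (mI (AI fu)) ((2 ^ 28 / 2 ^ k : ℂ) • (A + G')) K) ((wZ D Xr yy).at K) :=
    fun K hK => by
    rw [wZ_at _ _ _ _ hK, smul_add, mwu_add]
    exact RwL_Z (rowX K hK) (hG K hK)
  -- bounds of the node values
  have mM : ∀ u, ∀ K < 9, ∀ e, |QM u K e| ≤ 2 ^ 54 := fun u K hK e =>
    (comp_le (bnd_ok ((rowM K hK).node u) (oM K hK)) e).trans c54.le
  have mX : ∀ u, ∀ K < 9, ∀ e, |QX u K e| ≤ 2 ^ 54 := fun u K hK e =>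
    (comp_le (bnd_ok ((rowX K hK).node u) (oX K hK)) e).trans c54.le
  -- the forms
  obtain ⟨T1, t1a, t1b⟩ := kNd_leaf (kE Lc1 (bsU Lc1 (frU fu))) k1
  obtain ⟨T2, t2a, t2b⟩ := kNd_leaf (kE Lc3 (bsW Lc3 (frW te.fr))) k2
  choose YA a1 a2 a3 using fun u => kU_ok fu (T1 u)
  choose YB b1 b2 b3 using fun u => kW_ok te.fr (T2 u)
  obtain ⟨Ju, ju1, ju2, ju3⟩ := jU_ok fu
  obtain ⟨Jw, jw1, jw2, jw3⟩ := jW_ok te.fr
  have a4 := r52_U rA (Y := YA) (fun u => by rw [t1a]; exact a1 u) a3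
  have b4 := r52_W rB (Y := YB) (fun u => by rw [t2a]; exact b1 u) b3
  have sBd : ∀ u, Bc (2 ^ 125) (sV te.pq te.cs (YA (rr u)) (YB (rr u)) Ju Jw) := fun u =>
    sV_bd (a := sm9 (mkMa fu)) (b := sm9 (mkMa te.fr)) (ble_le e0) (ble_le e8) (okX_ok e16)
      (okX_ok e24) (a4 (rr u)) (b4 (rr u))
      (fun i hi j hj e => by exact_mod_cast compF_le (ju3 i hi j hj) e)
      (fun i hi j hj e => by exact_mod_cast compF_le (jw3 i hi j hj) e)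
  refine final_ok (pq := te.pq) (cs := te.cs) hD hP hrr (t1b t) (t2b t) a2 b2 ju2 jw2 rowM rowZ hRs
    (fun v => ?_) w1 w2 (nzd_ok w3) (nzd_ok w4)
  refine s5_ok H.T H.A hD (F := fun u => (2 ^ (4 - D) : ℤ) • mw (QM u) (QX u) -
    sV te.pq te.cs (YA (rr u)) (YB (rr u)) Ju Jw) (fun u => ?_) (fun u => ?_)
    (fun u => HmC_N (a2 (rr u)) (b2 (rr u)) ju2 jw2) oR T5 hP v
  · rw [H.T.nn]
    refine ndN_ok (Nat.sub_le _ _) (x1 u) (y1 u) (qM3 u) (qX3 u) ?_ ?_ ju1 jw1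
    · rw [t1a]
      exact a1 (rr u)
    · rw [t2a]
      exact b1 (rr u)
  · exact N_bd (Nat.sub_le _ _) (mM u) (mX u) (sBd u)

end Pool.Agent.Helper45.M2
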